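import Mathlib
import Pool.Agent.Helper40.MobDefs

/-!
Definitions used in the statement on reduced free products.
-/

open Filter Topology
open scoped ArithmeticFunction.Moebius

namespace Pool.Agent.Helper40.Mob

universe u

variable {A : Type u} [CStarAlgebra A]

/-- `a` is Moebius disjoint along the orbit of `α`, with every twist by a character of `ℤ`:
the averages of `μ(n) zⁿ ρ(αⁿ(a))` tend to zero for every state `ρ` and every `|z| = 1` -/
def TwistedDisjoint (α : A → A) (a : A) : Prop :=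
  ∀ ρ : A →L[ℂ] ℂ, IsState ρ → ∀ z : ℂ, ‖z‖ = 1 →
    Tendsto (fun N : ℕ => (∑ n ∈ Finset.Icc 1 N, (μ n : ℂ) * z ^ n * ρ (α^[n] a)) / (N : ℂ))
      atTop (𝓝 0)

/-- the family `B` of subalgebras is freely independent with respect to `φ`: the value of `φ` is zero
on every nonempty product of elements of kernel of `φ` taken from the subalgebras in such a way that
neighbouring factors come from different subalgebras -/
def IsFree {ι : Type*} (φ : A →L[ℂ] ℂ) (B : ι → StarSubalgebra ℂ A) : Prop :=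
  ∀ L : List (ι × A), L ≠ [] → (∀ p ∈ L, p.2 ∈ B p.1 ∧ φ p.2 = 0) →
    L.IsChain (fun p q => p.1 ≠ q.1) → φ (L.map Prod.snd).prod = 0

/-- the subalgebra `C` lies in the closed linear span of a group `G` of unitaries, any two of which
commute up to a scalar, such that some iterate `α^p` maps `G` into itself and every `g ∈ G` becomes a
scalar after finitely many multiplicative differences `x ↦ α^(pm)(x) x*` for some `m ≥ 1` -/
def QuasiUnipotent (α : A → A) (C : StarSubalgebra ℂ A) : Prop :=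
  ∃ p : ℕ, 1 ≤ p ∧ ∃ G : Subgroup (unitary A),
    (∀ g ∈ G, ∀ h ∈ G, ∃ c : ℂ, (g : A) * (h : A) = c • ((h : A) * (g : A))) ∧
    (∀ g ∈ G, ∃ g' ∈ G, (g' : A) = α^[p] (g : A)) ∧
    (∀ g ∈ G, ∃ m : ℕ, 1 ≤ m ∧ ∃ k : ℕ, ∃ c : ℂ, (mdiff α (p * m))^[k] (g : A) = c • (1 : A)) ∧
    ∀ a ∈ C, a ∈ closure ((Submodule.span ℂ {x : A | ∃ g ∈ G, (g : A) = x} :
      Submodule ℂ A) : Set A)

end Pool.Agent.Helper40.Mob
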