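import Mathlib
import Pool.Agent.Helper40.QFree

open Filter Topology MeasureTheory
open scoped InnerProductSpace ComplexConjugate

set_option linter.unusedSectionVars false

namespace Pool.Agent.Helper40.Free

open Pool.Agent.Helper40.Wiener Pool.Agent.Helper40.QFree

variable {K : Type*} [NormedAddCommGroup K] [InnerProductSpace ℂ K] [CompleteSpace K]

/-- sequences of operators with weakly vanishing twisted averages -/
def SG (ν : ℕ → ℂ) (Y : ℕ → K →L[ℂ] K) : Prop :=
  ∀ z : ℂ, ‖z‖ = 1 → ∀ x y : K, Tendsto (fun N : ℕ =>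
    (∑ n ∈ Finset.range N, ν n * z ^ n * inner ℂ x (Y n y)) / (N : ℂ)) atTop (𝓝 0)

theorem SG.add {ν : ℕ → ℂ} {Y Z : ℕ → K →L[ℂ] K} (hY : SG ν Y) (hZ : SG ν Z) :
    SG ν (fun n => Y n + Z n) := by
  intro z hz x y
  have h := (hY z hz x y).add (hZ z hz x y)
  rw [add_zero] at h
  refine h.congr fun N => ?_
  rw [← add_div, ← Finset.sum_add_distrib]
  congr 1
  apply Finset.sum_congr rfl
  intro n _
  rw [add_apply, inner_add_right]
  ring

theorem SG.sub {ν : ℕ → ℂ} {Y Z : ℕ → K →L[ℂ] K} (hY : SG ν Y) (hZ : SG ν Z) :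
    SG ν (fun n => Y n - Z n) := by
  intro z hz x y
  have h := (hY z hz x y).sub (hZ z hz x y)
  rw [sub_zero] at h
  refine h.congr fun N => ?_
  rw [← sub_div, ← Finset.sum_sub_distrib]
  congr 1
  apply Finset.sum_congr rfl
  intro n _
  rw [sub_apply, inner_sub_right]
  ring

theorem SG.congr {ν : ℕ → ℂ} {Y Z : ℕ → K →L[ℂ] K} (hY : SG ν Y) (h : ∀ n, Y n = Z n) :
    SG ν Z := by
  have : Y = Z := funext h
  rwa [← this]

theorem SG.star {ν : ℕ → ℂ} {Y : ℕ → K →L[ℂ] K} (hY : SG ν Y) :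
    SG (fun n => conj (ν n)) (fun n => star (Y n)) := by
  intro z hz x y
  have h := (hY (conj z) (by rw [RCLike.norm_conj, hz]) y x)
  rw [tendsto_zero_iff_norm_tendsto_zero] at h ⊢
  refine h.congr fun N => ?_
  rw [← RCLike.norm_conj, map_div₀, map_sum, Complex.conj_natCast]
  congr 2
  apply Finset.sum_congr rfl
  intro n _
  rw [map_mul, map_mul, map_pow, Complex.conj_conj, inner_conj_symm, inner_star_right]

theorem SG.twist {ν : ℕ → ℂ} {Y : ℕ → K →L[ℂ] K} (hY : SG ν Y) {w : ℂ} (hw : ‖w‖ = 1) :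
    SG (fun n => ν n * w ^ n) Y := by
  intro z hz x y
  refine (hY (w * z) (by rw [norm_mul, hw, hz, one_mul]) x y).congr fun N => ?_
  congr 1
  apply Finset.sum_congr rfl
  intro n _
  rw [mul_pow]
  ring

/-- it is enough to test on a set of vectors -/
theorem SG_of_total {ν : ℕ → ℂ} (hν : ∀ n, ‖ν n‖ ≤ 1) {Y : ℕ → K →L[ℂ] K} {C : ℝ}
    (hY : ∀ n, ‖Y n‖ ≤ C) (S : Set K)
    (h1 : ∀ z : ℂ, ‖z‖ = 1 → ∀ x ∈ S, ∀ y : K, Tendsto (fun N : ℕ =>
      (∑ n ∈ Finset.range N, ν n * z ^ n * inner ℂ x (Y n y)) / (N : ℂ)) atTop (𝓝 0))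
    (h2 : ∀ x : K, (∀ s ∈ S, inner ℂ x s = 0) → ∀ n (y : K), inner ℂ x (Y n y) = 0) :
    SG ν Y := by
  intro z hz x y
  let T : ℕ → K →ₗ[ℂ] ℂ := fun n =>
    { toFun := fun x => inner ℂ (Y n y) x
      map_add' := fun a b => inner_add_right _ _ _
      map_smul' := fun c a => by simp }
  let w : ℕ → ℂ := fun n => conj (ν n * z ^ n)
  have hw : ∀ n, ‖w n‖ ≤ 1 := by
    intro n
    simp only [w]
    rw [RCLike.norm_conj, norm_mul, norm_pow, hz, one_pow, mul_one]
    exact hν n
  have hT : ∀ n ξ, ‖T n ξ‖ ≤ (C * ‖y‖) * ‖ξ‖ := by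
    intro n ξ
    refine (norm_inner_le_norm _ _).trans ?_
    gcongr
    refine (ContinuousLinearMap.le_opNorm _ _).trans ?_
    gcongr
    exact hY n
  have key : ∀ x : K, x ∈ goodL T w ↔ Tendsto (fun N : ℕ =>
      (∑ n ∈ Finset.range N, ν n * z ^ n * inner ℂ x (Y n y)) / (N : ℂ)) atTop (𝓝 0) := by
    intro x
    refine Iff.trans ?_ tendsto_zero_iff_norm_tendsto_zero.symm
    change Tendsto _ _ _ ↔ _
    have : ∀ N : ℕ, ‖∑ n ∈ Finset.range N, w n • T n x‖ / (N : ℝ) =
        ‖(∑ n ∈ Finset.range N, ν n * z ^ n * inner ℂ x (Y n y)) / (N : ℂ)‖ := by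
      intro N
      rw [norm_div, Complex.norm_natCast, ← RCLike.norm_conj, map_sum]
      congr 2
      apply Finset.sum_congr rfl
      intro n _
      simp only [w, T, LinearMap.coe_mk, AddHom.coe_mk, smul_eq_mul]
      rw [map_mul, Complex.conj_conj, inner_conj_symm]
    simp only [this]
  rw [← key]
  have hM := goodL_closed' T w hw _ hT
  have hc : IsComplete (goodL T w : Set K) := hM.isComplete
  have : CompleteSpace (goodL T w) := hc.completeSpace_coe
  obtain ⟨p, hp, q, hq, rfl⟩ := (goodL T w).exists_add_mem_mem_orthogonal x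
  refine (goodL T w).add_mem hp ?_
  rw [key]
  have h3 : ∀ s ∈ S, inner ℂ q s = 0 := fun s hs =>
    (Submodule.mem_orthogonal' _ q).1 hq s ((key s).2 (h1 z hz s hs y))
  have h4 := h2 q h3
  simp only [h4, mul_zero, Finset.sum_const_zero, zero_div]
  exact tendsto_const_nhds

/-- sequences that are Fourier coefficients of a bounded density -/
def IsFS (g : ℕ → ℂ) : Prop :=
  ∃ (X : Type) (_ : MeasurableSpace X) (κ : Measure X) (_ : IsFiniteMeasure κ) (u h : X → ℂ),
    Measurable u ∧ Measurable h ∧ (∀ x, ‖u x‖ = 1) ∧ (∀ x, ‖h x‖ ≤ 1) ∧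
    ∀ n, g n = ∫ x, h x * u x ^ n ∂κ

theorem IsFS.avg {g : ℕ → ℂ} (hg : IsFS g) (b : ℕ → ℂ) (B : ℝ) (hb : ∀ n, ‖b n‖ ≤ B)
    (h : ∀ z : ℂ, ‖z‖ = 1 → Tendsto (fun N : ℕ =>
      (∑ n ∈ Finset.range N, b n * z ^ n) / (N : ℂ)) atTop (𝓝 0)) :
    Tendsto (fun N : ℕ => (∑ n ∈ Finset.range N, b n * g n) / (N : ℂ)) atTop (𝓝 0) := by
  obtain ⟨X, _, κ, _, u, k, hu, hk, hu1, hk1, hgn⟩ := hg
  have hB : 0 ≤ B := (norm_nonneg _).trans (hb 0)
  let F : ℕ → X → ℂ := fun N x => k x * ((∑ n ∈ Finset.range N, b n * u x ^ n) / (N : ℂ))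
  have hF : ∀ N, (∑ n ∈ Finset.range N, b n * g n) / (N : ℂ) = ∫ x, F N x ∂κ := by
    intro N
    have h1 : ∀ x, F N x = ∑ n ∈ Finset.range N, (b n / (N : ℂ)) * (k x * u x ^ n) := by
      intro x
      simp only [F]
      rw [Finset.sum_div, Finset.mul_sum]
      apply Finset.sum_congr rfl
      intro n _
      ring
    simp only [h1]
    rw [integral_finsetSum]
    · rw [Finset.sum_div]
      apply Finset.sum_congr rfl
      intro n _
      rw [integral_const_mul, ← hgn]
      ring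
    · intro n _
      apply Integrable.const_mul
      refine Integrable.of_bound (C := 1) (hk.mul (hu.pow_const n)).aestronglyMeasurable ?_
      refine Eventually.of_forall fun x => ?_
      rw [norm_mul, norm_pow, hu1, one_pow, mul_one]
      exact hk1 x
  simp only [hF]
  have h0 : (0 : ℂ) = ∫ x, (0 : ℂ) ∂κ := by simp
  rw [h0]
  apply tendsto_integral_of_dominated_convergence (fun _ => B)
  · intro N
    apply Measurable.aestronglyMeasurable
    apply hk.mul
    apply Measurable.div_const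
    apply Finset.measurable_sum
    intro n _
    exact (hu.pow_const n).const_mul _
  · exact integrable_const _
  · intro N
    refine Eventually.of_forall fun x => ?_
    simp only [F]
    rw [norm_mul, norm_div, Complex.norm_natCast]
    have h2 : ‖∑ n ∈ Finset.range N, b n * u x ^ n‖ ≤ N * B := by
      refine (norm_sum_le _ _).trans ?_
      calc _ ≤ ∑ n ∈ Finset.range N, B := by
            apply Finset.sum_le_sum
            intro n _
            rw [norm_mul, norm_pow, hu1, one_pow, mul_one]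
            exact hb n
        _ = _ := by simp
    rcases Nat.eq_zero_or_pos N with h3 | h3
    · subst h3; simp [hB]
    · have h4 : (0 : ℝ) < N := by exact_mod_cast h3
      calc _ ≤ 1 * (N * B / N) := by
            gcongr
            exact hk1 x
        _ = B := by field_simp
  · refine Eventually.of_forall fun x => ?_
    have h5 := (h (u x) (hu1 x)).const_mul (k x)
    rw [mul_zero] at h5
    exact h5

/-- the left lemma -/
theorem SG_left {ν : ℕ → ℂ} (hν : ∀ n, ‖ν n‖ ≤ 1) {C Y Q : ℕ → K →L[ℂ] K} {cC cY : ℝ}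
    (hC : ∀ n, ‖C n‖ ≤ cC) (hY : ∀ n, ‖Y n‖ ≤ cY) (hQ : ∀ n, star (Q n) = Q n)
    (hQY : ∀ n, Q n * Y n = Y n) (g : ℕ → ℕ → ℂ)
    (hR : ∀ m n, Q m * star (C m) * C n * Q n = g m n • Q n) (hg : ∀ m, IsFS (g m))
    (hS : SG ν Y) : SG ν (fun n => C n * Y n) := by
  have hcC : 0 ≤ cC := (norm_nonneg _).trans (hC 0)
  have hcY : 0 ≤ cY := (norm_nonneg _).trans (hY 0)
  apply SG_of_total hν (C := cC * cY) _ {x | ∃ m w, x = C m (Q m w)}
  · rintro z hz x ⟨m, w, rfl⟩ y
    have h1 : ∀ n, inner ℂ (C m (Q m w)) ((C n * Y n) y) = g m n * inner ℂ w (Y n y) := by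
      intro n
      have h2 : (C n * Y n) y = (C n * Q n) (Y n y) := by
        conv_lhs => rw [← hQY n]
        rfl
      have h3 : C m (Q m w) = (C m * Q m) w := rfl
      rw [h2, h3, ← inner_star_right, star_mul, hQ]
      have h4 : (Q m * star (C m)) ((C n * Q n) (Y n y)) = g m n • Y n y := by
        have h5 : (Q m * star (C m)) ((C n * Q n) (Y n y)) =
            (Q m * star (C m) * C n * Q n) (Y n y) := by
          simp only [mul_assoc]; rfl
        rw [h5, hR, smul_apply]
        congr 1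
        have : Q n (Y n y) = (Q n * Y n) y := rfl
        rw [this, hQY]
      rw [h4, inner_smul_right]
    simp only [h1]
    have h6 := (hg m).avg (fun n => ν n * z ^ n * inner ℂ w (Y n y)) (‖w‖ * (cY * ‖y‖)) ?_ ?_
    · refine h6.congr fun N => ?_
      congr 1
      apply Finset.sum_congr rfl
      intro n _
      ring
    · intro n
      rw [norm_mul, norm_mul, norm_pow, hz, one_pow, mul_one]
      calc _ ≤ 1 * (‖w‖ * (cY * ‖y‖)) := by
            gcongr
            · exact hν n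
            · refine (norm_inner_le_norm _ _).trans ?_
              gcongr
              refine (ContinuousLinearMap.le_opNorm _ _).trans ?_
              gcongr
              exact hY n
        _ = _ := one_mul _
    · intro u hu
      refine (hS (z * u) (by rw [norm_mul, hz, hu, one_mul]) w y).congr fun N => ?_
      congr 1
      apply Finset.sum_congr rfl
      intro n _
      rw [mul_pow]
      ring
  · intro x hx n y
    have h2 : (C n * Y n) y = C n (Q n (Y n y)) := by
      conv_lhs => rw [← hQY n]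
      rfl
    rw [h2]
    exact hx _ ⟨n, Y n y, rfl⟩
  · intro n
    refine (norm_mul_le _ _).trans ?_
    gcongr
    · exact hC n
    · exact hY n

theorem single_avg {f : ℕ → ℂ} (m : ℕ) (hf : ∀ n, n ≠ m → f n = 0) :
    Tendsto (fun N : ℕ => (∑ n ∈ Finset.range N, f n) / (N : ℂ)) atTop (𝓝 0) := by
  rw [tendsto_zero_iff_norm_tendsto_zero]
  refine squeeze_zero (fun N => norm_nonneg _) (fun N => ?_)
    (tendsto_const_div_atTop_nhds_zero_nat ‖f m‖)
  rw [norm_div, Complex.norm_natCast]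
  gcongr
  by_cases hm : m ∈ Finset.range N
  · rw [Finset.sum_eq_single_of_mem m hm (fun n _ hn => hf n hn)]
  · rw [Finset.sum_eq_zero]
    · simp
    · intro n hn
      apply hf
      rintro rfl
      exact hm hn

/-- orthogonal ranges -/
theorem SG_of_orth {ν : ℕ → ℂ} (hν : ∀ n, ‖ν n‖ ≤ 1) {P Y : ℕ → K →L[ℂ] K} {cY : ℝ}
    (hY : ∀ n, ‖Y n‖ ≤ cY) (hP : ∀ n, star (P n) = P n)
    (hPP : ∀ m n, m ≠ n → P m * P n = 0) (hPY : ∀ n, P n * Y n = Y n) : SG ν Y := by
  apply SG_of_total hν hY {x | ∃ m w, x = P m w}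
  · rintro z hz x ⟨m, w, rfl⟩ y
    apply single_avg m
    intro n hn
    have h1 : inner ℂ (P m w) (Y n y) = 0 := by
      rw [← inner_star_right, hP]
      have h2 : P m (Y n y) = (P m * P n * Y n) y := by
        rw [mul_assoc, hPY]; rfl
      rw [h2, hPP m n (Ne.symm hn), zero_mul]
      simp
    rw [h1, mul_zero]
  · intro x hx n y
    have h2 : Y n y = P n (Y n y) := by
      conv_lhs => rw [← hPY n]
      rfl
    rw [h2]
    exact hx _ ⟨n, Y n y, rfl⟩

/-- constant sequences -/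
theorem SG_const {ν : ℕ → ℂ} (hν : OrthLin ν) (Y : K →L[ℂ] K) : SG ν (fun _ => Y) := by
  intro z hz x y
  have h1 := (hν.2 z hz).mul_const ‖(inner ℂ x (Y y) : ℂ)‖
  rw [zero_mul] at h1
  rw [tendsto_zero_iff_norm_tendsto_zero]
  refine h1.congr fun N => ?_
  rw [← Finset.sum_mul, norm_div, norm_mul, Complex.norm_natCast]
  ring

/-- periodic sequences -/
theorem SG_periodic {ν : ℕ → ℂ} (hν : OrthLin ν) (Y : ℕ → K →L[ℂ] K) (p : ℕ) (hp : 1 ≤ p)
    (hY : ∀ n, Y (n + p) = Y n) : SG ν Y := by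
  intro z hz x y
  have hY' : ∀ n, Y n = Y (n % p) := by
    intro n
    have h1 : ∀ q r, Y (r + p * q) = Y r := by
      intro q r
      induction q with
      | zero => simp
      | succ q ih => rw [mul_add, mul_one, ← add_assoc, hY, ih]
    conv_lhs => rw [← Nat.mod_add_div n p]
    rw [h1]
  have hp0 : (p : ℂ) ≠ 0 := by
    have : p ≠ 0 := by omega
    exact_mod_cast this
  have hp0' : (p : ℝ) ≠ 0 := by exact_mod_cast hp0
  -- expansion of the indicator of a residue class
  have hind : ∀ n : ℕ, ∀ r < p, (if n % p = r then (1 : ℂ) else 0) = (1 / (p : ℂ)) *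
      ∑ a ∈ Finset.range p, (Real.fourierChar ((a : ℝ) * (((n : ℤ) - r : ℤ) / p : ℝ)) : ℂ) := by
    intro n r hr
    rw [root_filter p hp]
    have h1 : (p : ℤ) ∣ ((n : ℤ) - r) ↔ n % p = r := by
      rw [← Int.modEq_iff_dvd, Int.natCast_modEq_iff]
      constructor
      · intro h
        have := h.symm
        rw [Nat.ModEq, Nat.mod_eq_of_lt hr] at this
        exact this
      · intro h
        rw [Nat.ModEq, Nat.mod_eq_of_lt hr, h]
    by_cases h2 : n % p = r
    · rw [if_pos h2, if_pos (h1.2 h2)]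
      field_simp
    · rw [if_neg h2, if_neg (fun h => h2 (h1.1 h)), mul_zero]
  have hexp : ∀ n : ℕ, ν n * z ^ n * inner ℂ x (Y n y) = ∑ r ∈ Finset.range p,
      ∑ a ∈ Finset.range p, ((1 / (p : ℂ)) * inner ℂ x (Y r y) *
        (Real.fourierChar (-((a : ℝ) * (r / p : ℝ))) : ℂ)) *
        (ν n * (z * (Real.fourierChar ((a : ℝ) / p) : ℂ)) ^ n) := by
    intro n
    have h1 : inner ℂ x (Y n y) = ∑ r ∈ Finset.range p,
        (if n % p = r then (1 : ℂ) else 0) * inner ℂ x (Y r y) := by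
      rw [hY' n]
      have h3 : n % p < p := Nat.mod_lt _ (by omega)
      rw [Finset.sum_eq_single_of_mem (n % p) (Finset.mem_range.2 h3)]
      · simp
      · intro r _ hr
        rw [if_neg (Ne.symm hr), zero_mul]
    rw [h1, Finset.mul_sum]
    apply Finset.sum_congr rfl
    intro r hr
    rw [hind n r (Finset.mem_range.1 hr), Finset.mul_sum, Finset.sum_mul, Finset.mul_sum]
    apply Finset.sum_congr rfl
    intro a _
    have h4 : (Real.fourierChar ((a : ℝ) * (((n : ℤ) - r : ℤ) / p : ℝ)) : ℂ) =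
        (Real.fourierChar (-((a : ℝ) * (r / p : ℝ))) : ℂ) *
          (Real.fourierChar ((a : ℝ) / p) : ℂ) ^ n := by
      rw [phase_pow]
      have h5 : ((a : ℝ) * (((n : ℤ) - r : ℤ) / p : ℝ)) =
          -((a : ℝ) * (r / p : ℝ)) + ((a : ℝ) / p) * n := by
        push_cast
        ring
      rw [h5, AddChar.map_add_eq_mul]
      push_cast
      ring
    rw [h4, mul_pow]
    ring
  have hlim : ∀ r ∈ Finset.range p, ∀ a ∈ Finset.range p, Tendsto (fun N : ℕ =>
      (∑ n ∈ Finset.range N, ((1 / (p : ℂ)) * inner ℂ x (Y r y) *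
        (Real.fourierChar (-((a : ℝ) * (r / p : ℝ))) : ℂ)) *
        (ν n * (z * (Real.fourierChar ((a : ℝ) / p) : ℂ)) ^ n)) / (N : ℂ)) atTop (𝓝 0) := by
    intro r _ a _
    have h1 := hν.2 (z * (Real.fourierChar ((a : ℝ) / p) : ℂ))
      (by rw [norm_mul, hz, Circle.norm_coe, one_mul])
    have h2 := h1.const_mul ‖((1 / (p : ℂ)) * inner ℂ x (Y r y) *
        (Real.fourierChar (-((a : ℝ) * (r / p : ℝ))) : ℂ))‖
    rw [mul_zero] at h2
    rw [tendsto_zero_iff_norm_tendsto_zero]
    refine h2.congr fun N => ?_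
    rw [← Finset.mul_sum, norm_div, norm_mul (_ * _ * _), Complex.norm_natCast, mul_div_assoc]
  have hlim2 := tendsto_finsetSum (Finset.range p)
    (fun r hr => tendsto_finsetSum (Finset.range p) (fun a ha => hlim r hr a ha))
  simp only [Finset.sum_const_zero] at hlim2
  refine hlim2.congr fun N => ?_
  have e1 : ∀ G : ℕ → ℕ → ℕ → ℂ, (∑ n ∈ Finset.range N, ∑ r ∈ Finset.range p,
      ∑ a ∈ Finset.range p, G r a n) = ∑ r ∈ Finset.range p, ∑ a ∈ Finset.range p,
      ∑ n ∈ Finset.range N, G r a n := by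
    intro G
    rw [Finset.sum_comm]
    apply Finset.sum_congr rfl
    intro r _
    rw [Finset.sum_comm]
  rw [Finset.sum_congr rfl (fun n _ => hexp n), e1, Finset.sum_div]
  apply Finset.sum_congr rfl
  intro r _
  rw [Finset.sum_div]

end Pool.Agent.Helper40.Free
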