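import Mathlib
import Pool.Agent.Helper40.Free.SG

open Filter Topology MeasureTheory
open scoped InnerProductSpace ComplexConjugate ComplexOrder

set_option linter.unusedSectionVars false

namespace Pool.Agent.Helper40.Free

open Pool.Agent.Helper40.Wiener Pool.Agent.Helper40.QFree Pool.Agent.Helper40.Mob

universe u

variable {A : Type u} [CStarAlgebra A]

/-- the cyclic GNS representation -/
theorem exists_gns_cyc (ρ : A →L[ℂ] ℂ) (hρ : IsState ρ) :
    ∃ (H : Type u) (_ : NormedAddCommGroup H) (_ : InnerProductSpace ℂ H) (_ : CompleteSpace H)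
      (π : A →⋆ₐ[ℂ] (H →L[ℂ] H)) (ζ : H), (∀ a, ρ a = inner ℂ ζ (π a ζ)) ∧
      DenseRange (fun a => π a ζ) := by
  let _ := CStarAlgebra.spectralOrder A
  have := CStarAlgebra.spectralOrderedRing A
  have hpos : ∀ a : A, 0 ≤ a → 0 ≤ (ρ : A →ₗ[ℂ] ℂ) a := by
    intro a ha
    obtain ⟨b, rfl⟩ := CStarAlgebra.nonneg_iff_eq_star_mul_self.1 ha
    obtain ⟨r, hr, h1⟩ := hρ.1 b
    change 0 ≤ ρ (star b * b)
    rw [h1]
    exact_mod_cast hr
  let f : A →ₚ[ℂ] ℂ := PositiveLinearMap.mk₀ (ρ : A →ₗ[ℂ] ℂ) hpos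
  have hval : ∀ a, f.gnsStarAlgHom a ((f.toPreGNS 1 : f.PreGNS) : f.GNS) =
      ((f.toPreGNS a : f.PreGNS) : f.GNS) := by
    intro a
    change f.gnsNonUnitalStarAlgHom a ((f.toPreGNS 1 : f.PreGNS) : f.GNS) = _
    rw [PositiveLinearMap.gnsNonUnitalStarAlgHom_apply_coe]
    simp only [PositiveLinearMap.ofPreGNS_toPreGNS,
      PositiveLinearMap.leftMulMapPreGNS_apply, mul_one]
  refine ⟨f.GNS, inferInstance, inferInstance, inferInstance, f.gnsStarAlgHom,
    ((f.toPreGNS 1 : f.PreGNS) : f.GNS), fun a => ?_, ?_⟩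
  · rw [hval, UniformSpace.Completion.inner_coe, PositiveLinearMap.preGNS_inner_def]
    simp only [PositiveLinearMap.ofPreGNS_toPreGNS, star_one, one_mul]
    rfl
  · simp only [hval]
    exact (UniformSpace.Completion.denseRange_coe (α := f.PreGNS)).comp
      (f.toPreGNS.surjective.denseRange) (UniformSpace.Completion.continuous_coe _)

section rep

variable {H : Type*} [NormedAddCommGroup H] [InnerProductSpace ℂ H] [CompleteSpace H]

/-- the isometry implementing an invariant endomorphism -/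
theorem exists_isom (φ : A →L[ℂ] ℂ) (π : A →⋆ₐ[ℂ] (H →L[ℂ] H)) (ζ : H)
    (hφ : ∀ a, φ a = inner ℂ ζ (π a ζ)) (hd : DenseRange (fun a => π a ζ))
    (α : A →⋆ₐ[ℂ] A) (hα : ∀ a, φ (α a) = φ a) :
    ∃ U : H →L[ℂ] H, star U * U = 1 ∧ ∀ a, U (π a ζ) = π (α a) ζ := by
  let e : A →ₗ[ℂ] H :=
    { toFun := fun a => π a ζ
      map_add' := fun a b => by rw [map_add, add_apply]
      map_smul' := fun c a => by rw [map_smul, smul_apply]; rfl }
  let f : A →ₗ[ℂ] H := e ∘ₗ (α : A →ₗ[ℂ] A)
  have hin : ∀ a b, inner ℂ (π a ζ) (π b ζ) = φ (star a * b) := by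
    intro a b
    rw [hφ, map_mul, map_star, mul_apply_eq_comp, inner_star_right]
  have hin2 : ∀ a b, inner ℂ (π (α a) ζ) (π (α b) ζ) = inner ℂ (π a ζ) (π b ζ) := by
    intro a b
    rw [hin, hin, ← map_star, ← map_mul, hα]
  have hnorm : ∀ a, ‖π (α a) ζ‖ = ‖π a ζ‖ := by
    intro a
    have h1 := hin2 a a
    rw [inner_self_eq_norm_sq_to_K, inner_self_eq_norm_sq_to_K] at h1
    have h2 : ‖π (α a) ζ‖ ^ 2 = ‖π a ζ‖ ^ 2 := by
      exact_mod_cast h1
    exact (sq_eq_sq₀ (norm_nonneg _) (norm_nonneg _)).1 h2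
  have hb : ∃ C, ∀ x, ‖f x‖ ≤ C * ‖e x‖ := ⟨1, fun x => by
    rw [one_mul]
    exact (hnorm x).le⟩
  have hd' : DenseRange e := hd
  have hU : ∀ a, f.extendOfNorm e (π a ζ) = π (α a) ζ := fun a =>
    LinearMap.extendOfNorm_eq hd' hb a
  refine ⟨f.extendOfNorm e, ?_, hU⟩
  have h3 : ∀ x y : H, inner ℂ (f.extendOfNorm e x) (f.extendOfNorm e y) = inner ℂ x y := by
    intro x y
    induction x, y using hd.induction_on₂ with
    | hp =>
      apply isClosed_eq <;> fun_prop
    | h a b =>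
      rw [hU, hU, hin2]
  ext x
  apply ext_inner_left ℂ
  intro y
  rw [mul_apply_eq_comp, inner_star_right, h3]
  rfl

/-- every isometry has Fourier-Stieltjes matrix coefficients: the unitary case -/
theorem fs_unitary (W : H →L[ℂ] H) (hW : W ∈ unitary (H →L[ℂ] H)) (ξ : H) (m : ℕ) :
    IsFS (fun n => inner ℂ ((W ^ m) ξ) ((W ^ n) ξ)) := by
  have hWn : IsStarNormal W := ⟨by
    have h1 := hW.1
    have h2 := hW.2
    change star W * W = W * star W
    rw [h1, h2]⟩
  obtain ⟨κ, hκ, h1⟩ := exists_measure W hWn ξ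
  refine ⟨spectrum ℂ W, inferInstance, κ, hκ, fun z => (z : ℂ), fun z => (conj (z : ℂ)) ^ m,
    by fun_prop, by fun_prop, fun z => norm_spec W hW z, fun z => ?_, fun n => ?_⟩
  · rw [norm_pow, RCLike.norm_conj, norm_spec W hW z, one_pow]
  · let f : C(spectrum ℂ W, ℂ) := (ContinuousMap.restrict (spectrum ℂ W) (ContinuousMap.id ℂ))
    have h2 := h1 ((star f) ^ m * f ^ n)
    have h3 : cfcHom hWn f = W := cfcHom_id hWn
    have h4 : cfcHom hWn ((star f) ^ m * f ^ n) = (star W) ^ m * W ^ n := by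
      rw [map_mul, map_pow, map_pow, map_star, h3]
    rw [h4] at h2
    have h5 : inner ℂ ((W ^ m) ξ) ((W ^ n) ξ) = inner ℂ ξ (((star W) ^ m * W ^ n) ξ) := by
      rw [mul_apply_eq_comp, ← star_pow, inner_star_right]
    change inner ℂ ((W ^ m) ξ) ((W ^ n) ξ) = _
    rw [h5, ← h2]
    rfl

/-- the isometric case, by a unitary dilation -/
theorem fs_isometry (U : H →L[ℂ] H) (hU : star U * U = 1) (ξ : H) (m : ℕ) :
    IsFS (fun n => inner ℂ ((U ^ m) ξ) ((U ^ n) ξ)) := by
  let L := WithLp 2 (H × H)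
  let e := WithLp.prodContinuousLinearEquiv 2 ℂ H H
  let D : H →L[ℂ] H := 1 - U * star U
  let W₀ : H × H →L[ℂ] H × H :=
    (U.comp (ContinuousLinearMap.fst ℂ H H) + D.comp (ContinuousLinearMap.snd ℂ H H)).prod
      ((star U).comp (ContinuousLinearMap.snd ℂ H H))
  let V₀ : H × H →L[ℂ] H × H :=
    ((star U).comp (ContinuousLinearMap.fst ℂ H H)).prod
      (D.comp (ContinuousLinearMap.fst ℂ H H) + U.comp (ContinuousLinearMap.snd ℂ H H))
  let W : L →L[ℂ] L := (e.symm : H × H →L[ℂ] L) ∘L W₀ ∘L (e : L →L[ℂ] H × H)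
  let V : L →L[ℂ] L := (e.symm : H × H →L[ℂ] L) ∘L V₀ ∘L (e : L →L[ℂ] H × H)
  have hUU : ∀ x, (star U) (U x) = x := fun x => by
    have : (star U) (U x) = (star U * U) x := rfl
    rw [this, hU]
    rfl
  have hD : ∀ x, D x = x - U ((star U) x) := fun x => rfl
  have hW : ∀ x : L, W x = WithLp.toLp 2 (U x.fst + D x.snd, (star U) x.snd) := fun x => rfl
  have hV : ∀ x : L, V x = WithLp.toLp 2 ((star U) x.fst, D x.fst + U x.snd) := fun x => rfl
  have h1 : ∀ x, V (W x) = x := by
    intro x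
    rw [hV, hW]
    apply (WithLp.equiv 2 (H × H)).injective
    change ((star U) (U x.fst + D x.snd), D (U x.fst + D x.snd) + U ((star U) x.snd)) =
      (x.fst, x.snd)
    simp only [hD, map_add, map_sub, hUU]
    simp
  have h2 : ∀ x, W (V x) = x := by
    intro x
    rw [hV, hW]
    apply (WithLp.equiv 2 (H × H)).injective
    change (U ((star U) x.fst) + D (D x.fst + U x.snd), (star U) (D x.fst + U x.snd)) =
      (x.fst, x.snd)
    simp only [hD, map_add, map_sub, hUU]
    simp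
  have h3 : star W = V := by
    symm
    rw [ContinuousLinearMap.star_eq_adjoint, ContinuousLinearMap.eq_adjoint_iff]
    intro x y
    rw [hV, hW, WithLp.prod_inner_apply, WithLp.prod_inner_apply]
    change inner ℂ ((star U) x.fst) y.fst + inner ℂ (D x.fst + U x.snd) y.snd =
      inner ℂ x.fst (U y.fst + D y.snd) + inner ℂ x.snd ((star U) y.snd)
    have hs : ∀ a b : H, inner ℂ (U ((star U) a)) b = inner ℂ a (U ((star U) b)) := by
      intro a b
      exact (inner_star_right U _ _).symm.trans (inner_star_left U _ _)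
    simp only [hD, inner_add_left, inner_add_right, inner_sub_left, inner_sub_right,
      inner_star_left, inner_star_right, hs]
    ring
  have hWu : W ∈ unitary (L →L[ℂ] L) := by
    constructor
    · rw [h3]; ext1 x; exact h1 x
    · rw [h3]; ext1 x; exact h2 x
  have hpow : ∀ n : ℕ, (W ^ n) (WithLp.toLp 2 (ξ, 0)) = WithLp.toLp 2 ((U ^ n) ξ, 0) := by
    intro n
    induction n with
    | zero => rfl
    | succ n ih =>
      rw [pow_succ', mul_apply_eq_comp, ih, hW]
      simp [pow_succ']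
  have h4 := fs_unitary W hWu (WithLp.toLp 2 (ξ, 0)) m
  have h5 : ∀ a b : H, inner ℂ (WithLp.toLp 2 (a, (0 : H)) : L) (WithLp.toLp 2 (b, (0 : H))) =
      inner ℂ a b := by
    intro a b
    rw [WithLp.prod_inner_apply]
    simp
  simp only [hpow, h5] at h4
  exact h4

end rep

/-- a functional with norm one and value one at the unit is a state -/
theorem isState_of_norm (g : A →L[ℂ] ℂ) (h1 : g 1 = 1) (h2 : ‖g‖ = 1) : IsState g := by
  let _ := CStarAlgebra.spectralOrder A
  have := CStarAlgebra.spectralOrderedRing A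
  have hle : ∀ a, ‖g a‖ ≤ ‖a‖ := fun a => by
    have := g.le_opNorm a
    rwa [h2, one_mul] at this
  have hnt : Nontrivial A := by
    by_contra h
    rw [not_nontrivial_iff_subsingleton] at h
    rw [Subsingleton.elim (1 : A) 0, map_zero] at h1
    exact zero_ne_one h1
  refine ⟨fun b => ?_, h2⟩
  have hsa : IsSelfAdjoint (star b * b) := IsSelfAdjoint.star_mul_self b
  have him : (g (star b * b)).im = 0 := by
    by_contra him
    set c := star b * b with hc
    set α := (g c).re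
    set β := (g c).im
    have key : ∀ s : ℝ, α ^ 2 + (β + s) ^ 2 ≤ ‖c‖ ^ 2 + s ^ 2 := by
      intro s
      have h3 := hle (c + ((s : ℂ) * Complex.I) • 1)
      have h4 : ‖g (c + ((s : ℂ) * Complex.I) • 1)‖ ^ 2 = α ^ 2 + (β + s) ^ 2 := by
        rw [map_add, map_smul, h1, smul_eq_mul, mul_one, ← Complex.normSq_eq_norm_sq,
          Complex.normSq_apply]
        simp [α, β]
        ring
      have h5 : ‖c + ((s : ℂ) * Complex.I) • (1 : A)‖ ^ 2 ≤ ‖c‖ ^ 2 + s ^ 2 := by
        rw [sq, ← CStarRing.norm_star_mul_self]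
        have h6 : star (c + ((s : ℂ) * Complex.I) • (1 : A)) * (c + ((s : ℂ) * Complex.I) • (1 : A)) =
            c * c + ((s : ℂ) ^ 2) • (1 : A) := by
          rw [star_add, star_smul, star_one, hsa.star_eq]
          have h7 : star ((s : ℂ) * Complex.I) = -((s : ℂ) * Complex.I) := by
            rw [Complex.star_def, map_mul, Complex.conj_ofReal, Complex.conj_I, mul_neg]
          rw [h7, neg_smul, add_mul, mul_add, mul_add, neg_mul, neg_mul, smul_mul_assoc, one_mul,
            mul_smul_comm, mul_one, smul_mul_smul_comm, one_mul]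
          have h8 : ((s : ℂ) * Complex.I) * ((s : ℂ) * Complex.I) = -((s : ℂ) ^ 2) := by
            linear_combination ((s : ℂ) ^ 2) * Complex.I_mul_I
          rw [h8, neg_smul]
          abel
        rw [h6]
        refine (norm_add_le _ _).trans ?_
        have h9 : ‖c * c‖ ≤ ‖c‖ ^ 2 := by rw [sq]; exact norm_mul_le _ _
        have h10 : ‖((s : ℂ) ^ 2) • (1 : A)‖ = s ^ 2 := by
          rw [norm_smul, norm_one, mul_one, norm_pow, Complex.norm_real, Real.norm_eq_abs, sq_abs]
        rw [h10]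
        gcongr
      rw [← h4]
      refine le_trans ?_ h5
      gcongr
    have h11 := key ((‖c‖ ^ 2 + 1) / (2 * β))
    have h12 : β ≠ 0 := him
    have h13 : 2 * β * ((‖c‖ ^ 2 + 1) / (2 * β)) = ‖c‖ ^ 2 + 1 := by field_simp
    nlinarith [sq_nonneg α, sq_nonneg β]
  have hre : 0 ≤ (g (star b * b)).re := by
    have h3 : ‖algebraMap ℝ A ‖star b * b‖ - star b * b‖ ≤ ‖star b * b‖ := by
      have h4 : (0 : A) ≤ algebraMap ℝ A ‖star b * b‖ - star b * b :=
        sub_nonneg.2 hsa.le_algebraMap_norm_self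
      have h5 : algebraMap ℝ A ‖star b * b‖ - star b * b ≤ algebraMap ℝ A ‖star b * b‖ :=
        sub_le_self _ (star_mul_self_nonneg b)
      refine (CStarAlgebra.norm_le_norm_of_nonneg_of_le h4 h5).trans ?_
      rw [norm_algebraMap', Real.norm_of_nonneg (norm_nonneg _)]
    have h6 := (hle _).trans h3
    rw [map_sub, Algebra.algebraMap_eq_smul_one] at h6
    have h7 : g (‖star b * b‖ • (1 : A)) = (‖star b * b‖ : ℂ) := by
      have : (‖star b * b‖ • (1 : A)) = ((‖star b * b‖ : ℂ)) • (1 : A) := by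
        rw [← Complex.coe_smul]
      rw [this, map_smul, h1, smul_eq_mul, mul_one]
    rw [h7] at h6
    have h8 := (Complex.abs_re_le_norm _).trans h6
    rw [Complex.sub_re, Complex.ofReal_re] at h8
    have := (abs_le.1 h8).2
    linarith
  refine ⟨(g (star b * b)).re, hre, ?_⟩
  apply Complex.ext
  · simp
  · rw [him]; simp

theorem state_one (ρ : A →L[ℂ] ℂ) (hρ : IsState ρ) : ρ 1 = 1 := by
  obtain ⟨H, _, _, _, π, ζ, hζ⟩ := exists_gns ρ hρ
  have hnt : Nontrivial A := by
    by_contra h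
    rw [not_nontrivial_iff_subsingleton] at h
    have h1 : ρ = 0 := by
      ext x
      rw [Subsingleton.elim x 0]
      simp
    have := hρ.2
    rw [h1, norm_zero] at this
    exact zero_ne_one this
  have h1 : ρ 1 = ((‖ζ‖ ^ 2 : ℝ) : ℂ) := by
    rw [hζ, map_one, one_apply_eq_self, inner_self_eq_norm_sq_to_K]
    push_cast
    rfl
  have h2 : ‖ρ‖ ≤ ‖ζ‖ ^ 2 := by
    apply ρ.opNorm_le_bound (by positivity)
    intro a
    rw [hζ]
    refine (norm_inner_le_norm _ _).trans ?_
    have h3 : ‖π a ζ‖ ≤ ‖a‖ * ‖ζ‖ := by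
      refine (ContinuousLinearMap.le_opNorm _ _).trans ?_
      gcongr
      exact NonUnitalStarAlgHom.norm_apply_le π a
    calc _ ≤ ‖ζ‖ * (‖a‖ * ‖ζ‖) := by gcongr
      _ = _ := by ring
  have h4 : ‖ζ‖ ^ 2 ≤ 1 := by
    have h5 := ρ.le_opNorm 1
    rw [h1, hρ.2, norm_one, one_mul, Complex.norm_real, Real.norm_of_nonneg (by positivity)] at h5
    exact h5
  rw [hρ.2] at h2
  have h6 : ‖ζ‖ ^ 2 = 1 := le_antisymm h4 h2
  rw [h1, h6]
  simp

/-- extension of states along an injective representation -/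
theorem state_ext {B : Type*} [CStarAlgebra B] (π : A →⋆ₐ[ℂ] B) (hπ : Function.Injective π)
    (ρ : A →L[ℂ] ℂ) (hρ : IsState ρ) : ∃ g : B →L[ℂ] ℂ, IsState g ∧ ∀ a, g (π a) = ρ a := by
  have hnorm : ∀ a, ‖π a‖ = ‖a‖ := fun a => NonUnitalStarAlgHom.norm_map π hπ a
  let f : A →ₗᵢ[ℂ] B := ⟨(π : A →ₗ[ℂ] B), hnorm⟩
  let e := f.equivRange
  let r : (LinearMap.range f.toLinearMap) →L[ℂ] ℂ :=
    ρ ∘L (e.symm.toContinuousLinearEquiv : (LinearMap.range f.toLinearMap) →L[ℂ] A)
  obtain ⟨g, hg1, hg2⟩ := exists_extension_norm_eq (LinearMap.range f.toLinearMap) r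
  have hga : ∀ a, g (π a) = ρ a := by
    intro a
    have h1 := hg1 (e a)
    have h2 : ((e a : LinearMap.range f.toLinearMap) : B) = π a := rfl
    rw [h2] at h1
    rw [h1]
    change ρ (e.symm (e a)) = ρ a
    rw [LinearIsometryEquiv.symm_apply_apply]
  have hr : ‖r‖ = 1 := by
    rw [← hρ.2]
    apply le_antisymm
    · apply r.opNorm_le_bound (norm_nonneg _)
      intro x
      change ‖ρ (e.symm x)‖ ≤ _
      refine (ρ.le_opNorm _).trans ?_
      rw [LinearIsometryEquiv.norm_map]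
    · have hr0 : 0 ≤ ‖r‖ := ContinuousLinearMap.opNorm_nonneg r
      refine ρ.opNorm_le_bound hr0 fun a => ?_
      have h1 : ρ a = r (e a) := by
        change ρ a = ρ (e.symm (e a))
        rw [LinearIsometryEquiv.symm_apply_apply]
      rw [h1]
      refine (r.le_opNorm _).trans ?_
      rw [LinearIsometryEquiv.norm_map]
  refine ⟨g, isState_of_norm g ?_ (hg2.trans hr), hga⟩
  rw [← map_one π, hga, state_one ρ hρ]

end Pool.Agent.Helper40.Free
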