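import Mathlib
import Pool.Agent.Helper40.Free.Gns
import Pool.Agent.Helper40.Free.FDefs

open Filter Topology MeasureTheory
open scoped InnerProductSpace ComplexConjugate

set_option linter.unusedSectionVars false

namespace Pool.Agent.Helper40.Free

open Pool.Agent.Helper40.Wiener Pool.Agent.Helper40.QFree Pool.Agent.Helper40.Mob

universe u

variable {A : Type u} [CStarAlgebra A] {ι : Type*}

/-- centred alternating words -/
def IsW (φ : A →L[ℂ] ℂ) (B : ι → StarSubalgebra ℂ A) (L : List (ι × A)) : Prop :=
  (∀ p ∈ L, p.2 ∈ B p.1 ∧ φ p.2 = 0) ∧ L.IsChain (fun p q => p.1 ≠ q.1)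

/-- value of a word -/
def val (L : List (ι × A)) : A := (L.map Prod.snd).prod

theorem val_cons (p : ι × A) (L : List (ι × A)) : val (p :: L) = p.2 * val L := by
  simp [val]

theorem val_nil : val ([] : List (ι × A)) = 1 := rfl

theorem IsW.nil (φ : A →L[ℂ] ℂ) (B : ι → StarSubalgebra ℂ A) : IsW φ B [] :=
  ⟨by simp, List.isChain_nil⟩

theorem IsW.tail {φ : A →L[ℂ] ℂ} {B : ι → StarSubalgebra ℂ A} {p : ι × A} {L : List (ι × A)}
    (h : IsW φ B (p :: L)) : IsW φ B L :=
  ⟨fun q hq => h.1 q (List.mem_cons_of_mem _ hq), h.2.tail⟩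

theorem IsW.cons {φ : A →L[ℂ] ℂ} {B : ι → StarSubalgebra ℂ A} {p : ι × A} {L : List (ι × A)}
    (h : IsW φ B L) (h1 : p.2 ∈ B p.1) (h2 : φ p.2 = 0) (h3 : ∀ q ∈ L.head?, p.1 ≠ q.1) :
    IsW φ B (p :: L) := by
  refine ⟨fun q hq => ?_, ?_⟩
  · rcases List.mem_cons.1 hq with rfl | hq
    · exact ⟨h1, h2⟩
    · exact h.1 q hq
  · cases L with
    | nil => exact List.isChain_singleton _
    | cons q L =>
      rw [List.isChain_cons_cons]
      exact ⟨h3 q (by simp), h.2⟩

section words

variable {φ : A →L[ℂ] ℂ} {B : ι → StarSubalgebra ℂ A} (hstar : ∀ a, φ (star a) = conj (φ a))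
include hstar

theorem IsW.star {L : List (ι × A)} (h : IsW φ B L) :
    IsW φ B (L.reverse.map (fun p => (p.1, star p.2))) := by
  refine ⟨fun q hq => ?_, ?_⟩
  · obtain ⟨p, hp, rfl⟩ := List.mem_map.1 hq
    have := h.1 p (List.mem_reverse.1 hp)
    refine ⟨star_mem this.1, ?_⟩
    change φ (Star.star p.2) = 0
    rw [hstar, this.2, map_zero]
  · rw [List.isChain_map, List.isChain_reverse]
    exact h.2.imp fun _ _ h => Ne.symm h

omit hstar in
theorem val_star (L : List (ι × A)) :
    val (L.reverse.map (fun p => (p.1, star p.2))) = star (val L) := by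
  induction L with
  | nil => simp [val]
  | cons p L ih =>
    rw [val_cons, star_mul, ← ih]
    simp [val]

theorem phi_word_word (hfree : IsFree φ B) {L M : List (ι × A)} (hL : IsW φ B L) (hM : IsW φ B M)
    (hne : L ≠ [] ∨ M ≠ []) (h : ∀ p ∈ L.head?, ∀ q ∈ M.head?, p.1 ≠ q.1) :
    φ (star (val L) * val M) = 0 := by
  have h1 : star (val L) * val M = val (L.reverse.map (fun p => (p.1, star p.2)) ++ M) := by
    rw [← val_star]
    simp [val]
  rw [h1]
  have h2 := IsW.star hstar hL
  apply hfree
  · intro h3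
    rw [List.append_eq_nil_iff] at h3
    rcases hne with h4 | h4
    · apply h4
      simpa using h3.1
    · exact h4 h3.2
  · intro p hp
    rcases List.mem_append.1 hp with hp | hp
    · exact h2.1 p hp
    · exact hM.1 p hp
  · apply h2.2.append hM.2
    intro p hp q hq
    have h3 : (L.reverse.map (fun p => (p.1, star p.2))).getLast? =
        L.head?.map (fun p => (p.1, star p.2)) := by
      rw [List.getLast?_map, List.getLast?_reverse]
    rw [h3] at hp
    rw [Option.mem_def, Option.map_eq_some_iff] at hp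
    obtain ⟨r, hr, rfl⟩ := hp
    exact h r hr q hq

end words

section span

variable {φ : A →L[ℂ] ℂ} {B : ι → StarSubalgebra ℂ A}

/-- span of all words (the empty word is `1`) -/
noncomputable def WS (φ : A →L[ℂ] ℂ) (B : ι → StarSubalgebra ℂ A) : Submodule ℂ A :=
  Submodule.span ℂ {x | ∃ L, IsW φ B L ∧ x = val L}

theorem mul_mem_WS (h1 : φ 1 = 1) {i : ι} {a : A} (ha : a ∈ B i) {x : A} (hx : x ∈ WS φ B) :
    a * x ∈ WS φ B := by
  classical
  -- the centred part
  have hcen : ∀ (b : A), b ∈ B i → b - φ b • (1 : A) ∈ B i ∧ φ (b - φ b • (1 : A)) = 0 := by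
    intro b hb
    refine ⟨sub_mem hb ((B i).smul_mem (one_mem _) _), ?_⟩
    rw [map_sub, map_smul, h1, smul_eq_mul, mul_one, sub_self]
  rw [WS] at hx
  induction hx using Submodule.span_induction with
  | mem x hx =>
    obtain ⟨L, hL, rfl⟩ := hx
    by_cases h0 : ∀ q ∈ L.head?, i ≠ q.1
    · have h2 : a * val L = val ((i, a - φ a • (1 : A)) :: L) + φ a • val L := by
        rw [val_cons]
        simp only
        rw [sub_mul, smul_mul_assoc, one_mul, sub_add_cancel]
      rw [h2]
      refine Submodule.add_mem _ (Submodule.subset_span ⟨_, ?_, rfl⟩)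
        (Submodule.smul_mem _ _ (Submodule.subset_span ⟨L, hL, rfl⟩))
      exact hL.cons (hcen a ha).1 (hcen a ha).2 h0
    · push Not at h0
      obtain ⟨q, hq, hiq⟩ := h0
      cases L with
      | nil => simp at hq
      | cons p L =>
        have hpq : p = q := by simpa using hq
        subst hpq
        have hp := hL.1 p List.mem_cons_self
        have hab : a * p.2 ∈ B i := mul_mem ha (by rw [hiq]; exact hp.1)
        have h2 : a * val (p :: L) = val ((i, a * p.2 - φ (a * p.2) • (1 : A)) :: L) +
            φ (a * p.2) • val L := by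
          rw [val_cons, val_cons]
          simp only
          rw [sub_mul, smul_mul_assoc, one_mul, sub_add_cancel, mul_assoc]
        rw [h2]
        refine Submodule.add_mem _ (Submodule.subset_span ⟨_, ?_, rfl⟩)
          (Submodule.smul_mem _ _ (Submodule.subset_span ⟨L, hL.tail, rfl⟩))
        refine hL.tail.cons (hcen _ hab).1 (hcen _ hab).2 ?_
        intro r hr
        cases L with
        | nil => simp at hr
        | cons s L =>
          have hsr : s = r := by simpa using hr
          subst hsr
          have h3 := hL.2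
          rw [List.isChain_cons_cons] at h3
          simp only
          rw [hiq]
          exact h3.1
  | zero => rw [mul_zero]; exact Submodule.zero_mem _
  | add x y _ _ hx hy => rw [mul_add]; exact Submodule.add_mem _ hx hy
  | smul c x _ hx => rw [mul_smul_comm]; exact Submodule.smul_mem _ _ hx

theorem adjoin_le_WS (h1 : φ 1 = 1) {x : A}
    (hx : x ∈ (StarAlgebra.adjoin ℂ (⋃ i, (B i : Set A)) : StarSubalgebra ℂ A)) :
    x ∈ WS φ B := by
  have hx' : x ∈ Algebra.adjoin ℂ ((⋃ i, (B i : Set A)) ∪ star (⋃ i, (B i : Set A))) := by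
    have h2 : x ∈ (StarAlgebra.adjoin ℂ (⋃ i, (B i : Set A))).toSubalgebra := hx
    rwa [StarAlgebra.adjoin_toSubalgebra] at h2
  clear hx
  have key : ∀ y ∈ WS φ B, x * y ∈ WS φ B := by
    induction hx' using Algebra.adjoin_induction with
    | mem x hx =>
      intro y hy
      have h3 : ∃ i, x ∈ B i := by
        rcases hx with hx | hx
        · obtain ⟨i, hi⟩ := Set.mem_iUnion.1 hx
          exact ⟨i, hi⟩
        · obtain ⟨i, hi⟩ := Set.mem_iUnion.1 (Set.mem_star.1 hx)
          have h4 : star (star x) ∈ B i := star_mem hi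
          rw [star_star] at h4
          exact ⟨i, h4⟩
      obtain ⟨i, hi⟩ := h3
      exact mul_mem_WS h1 hi hy
    | algebraMap c =>
      intro y hy
      rw [Algebra.algebraMap_eq_smul_one, smul_mul_assoc, one_mul]
      exact Submodule.smul_mem _ _ hy
    | add x z _ _ hx hz =>
      intro y hy
      rw [add_mul]
      exact Submodule.add_mem _ (hx y hy) (hz y hy)
    | mul x z _ _ hx hz =>
      intro y hy
      rw [mul_assoc]
      exact hx _ (hz y hy)
  have h5 := key 1 (Submodule.subset_span ⟨[], IsW.nil φ B, rfl⟩)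
  rwa [mul_one] at h5

end span

end Pool.Agent.Helper40.Free
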