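import Mathlib
import Pool.Agent.Helper40.Free.Proj

open Filter Topology MeasureTheory
open scoped InnerProductSpace ComplexConjugate

set_option linter.unusedSectionVars false

namespace Pool.Agent.Helper40.Free

open Pool.Agent.Helper40.Wiener Pool.Agent.Helper40.QFree Pool.Agent.Helper40.Mob

universe u

variable {A : Type u} [CStarAlgebra A] {ι : Type*}
variable {φ : A →L[ℂ] ℂ} {B : ι → StarSubalgebra ℂ A} {H : Type*} [NormedAddCommGroup H]
  [InnerProductSpace ℂ H] [CompleteSpace H]

/-- span of vectors of words starting at `i` -/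
noncomputable def VS (φ : A →L[ℂ] ℂ) (B : ι → StarSubalgebra ℂ A) (π : A →⋆ₐ[ℂ] (H →L[ℂ] H)) (ζ : H)
    (i : ι) : Submodule ℂ H :=
  Submodule.span ℂ {x | ∃ L, IsW φ B L ∧ (∃ p ∈ L.head?, p.1 = i) ∧ x = π (val L) ζ}

theorem exists_proj (hfree : IsFree φ B) (hstar : ∀ a, φ (star a) = conj (φ a)) (h1 : φ 1 = 1)
    (hgen : Dense ((StarAlgebra.adjoin ℂ (⋃ i, (B i : Set A)) : StarSubalgebra ℂ A) : Set A))
    (π : A →⋆ₐ[ℂ] (H →L[ℂ] H)) (ζ : H) (hφ : ∀ a, φ a = inner ℂ ζ (π a ζ))
    (hd : DenseRange (fun a => π a ζ)) :
    ∃ P : ι → H →L[ℂ] H, (∀ i, star (P i) = P i) ∧ (∀ i, P i * P i = P i) ∧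
      (∀ i j, i ≠ j → P i * P j = 0) ∧
      (∀ i, ∀ a ∈ B i, φ a = 0 → (1 - P i) * π a * (1 - P i) = 0) := by
  classical
  have hin : ∀ a b, inner ℂ (π a ζ) (π b ζ) = φ (star a * b) := by
    intro a b
    rw [hφ, map_mul, map_star, mul_apply_eq_comp, inner_star_right]
  let W : ι → Submodule ℂ H := fun i => (VS φ B π ζ i).topologicalClosure
  have hWc : ∀ i, CompleteSpace (W i) := fun i =>
    (Submodule.isClosed_topologicalClosure (VS φ B π ζ i)).isComplete.completeSpace_coe
  have hle : ∀ i, VS φ B π ζ i ≤ W i := fun i => Submodule.le_topologicalClosure _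
  have hmem : ∀ (L : List (ι × A)) (i : ι), IsW φ B L → (∃ p ∈ L.head?, p.1 = i) →
      π (val L) ζ ∈ W i := fun L i hL hi => hle i (Submodule.subset_span ⟨L, hL, hi, rfl⟩)
  -- orthogonality of a vector to W i
  have horth : ∀ (i : ι) (y : H), (∀ L, IsW φ B L → (∃ p ∈ L.head?, p.1 = i) →
      inner ℂ (π (val L) ζ) y = 0) → y ∈ (W i)ᗮ := by
    intro i y hy
    rw [Submodule.orthogonal_closure]
    rw [Submodule.mem_orthogonal]
    intro x hx
    rw [VS] at hx
    induction hx using Submodule.span_induction with
    | mem x hx =>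
      obtain ⟨L, hL, hi, rfl⟩ := hx
      exact hy L hL hi
    | zero => exact inner_zero_left _
    | add x z _ _ hx hz => rw [inner_add_left, hx, hz, add_zero]
    | smul c x _ hx => rw [inner_smul_left, hx, mul_zero]
  let P : ι → H →L[ℂ] H := fun i => (W i).starProjection
  have hPmem : ∀ i y, y ∈ W i → P i y = y := fun i y hy =>
    Submodule.starProjection_eq_self_iff.2 hy
  have hPorth : ∀ i y, y ∈ (W i)ᗮ → P i y = 0 := fun i y hy =>
    (Submodule.starProjection_apply_eq_zero_iff (W i)).2 hy
  have hPin : ∀ i y, P i y ∈ W i := fun i y => Submodule.starProjection_apply_mem _ _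
  refine ⟨P, fun i => ?_, fun i => ?_, fun i j hij => ?_, fun i a ha hφa => ?_⟩
  · exact (isSelfAdjoint_starProjection (W i))
  · exact (Submodule.isIdempotentElem_starProjection (W i))
  · ext y
    rw [mul_apply_eq_comp]
    have h2 : W j ≤ (W i)ᗮ := by
      apply Submodule.topologicalClosure_minimal _ _ (Submodule.isClosed_orthogonal _)
      rw [VS, Submodule.span_le]
      rintro x ⟨M, hM, ⟨q, hq, hqj⟩, rfl⟩
      apply horth
      rintro L hL ⟨p, hp, hpi⟩
      rw [hin]
      apply phi_word_word hstar hfree hL hM
      · left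
        rintro rfl
        simp at hp
      · intro p' hp' q' hq'
        have e1 : p' = p := Option.mem_unique hp' hp
        have e2 : q' = q := Option.mem_unique hq' hq
        rw [e1, e2, hpi, hqj]
        exact hij
    rw [hPorth i _ (h2 (hPin j y))]
    simp
  · set T := (1 - P i) * π a * (1 - P i) with hT
    have hTw : ∀ L, IsW φ B L → T (π (val L) ζ) = 0 := by
      intro L hL
      have hTy : ∀ y, T y = (1 - P i) (π a ((1 - P i) y)) := fun y => rfl
      by_cases h0 : ∀ q ∈ L.head?, i ≠ q.1
      · have h3 : π (val L) ζ ∈ (W i)ᗮ := by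
          apply horth
          rintro M hM ⟨p, hp, hpi⟩
          rw [hin]
          apply phi_word_word hstar hfree hM hL
          · left
            rintro rfl
            simp at hp
          · intro p' hp' q' hq'
            have e1 : p' = p := Option.mem_unique hp' hp
            rw [e1, hpi]
            exact h0 q' hq'
        have h4 : (1 - P i) (π (val L) ζ) = π (val L) ζ := by
          rw [sub_apply, hPorth i _ h3, sub_zero]
          rfl
        have h5 : π a (π (val L) ζ) = π (val ((i, a) :: L)) ζ := by
          rw [val_cons, map_mul]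
          rfl
        have h6 : IsW φ B ((i, a) :: L) := hL.cons ha hφa h0
        rw [hTy, h4, h5, sub_apply, hPmem i _ (hmem _ i h6 ⟨(i, a), by simp, rfl⟩)]
        exact sub_self _
      · push Not at h0
        obtain ⟨q, hq, hiq⟩ := h0
        have h3 : (1 - P i) (π (val L) ζ) = 0 := by
          rw [sub_apply, hPmem i _ (hmem _ i hL ⟨q, hq, hiq.symm⟩)]
          exact sub_self _
        rw [hTy, h3, map_zero, map_zero]
    let M : Submodule ℂ A :=
      { carrier := {x | T (π x ζ) = 0}
        add_mem' := by
          intro x y hx hy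
          change T (π (x + y) ζ) = 0
          rw [map_add, add_apply, map_add, hx, hy, add_zero]
        zero_mem' := by
          change T (π 0 ζ) = 0
          rw [map_zero]; simp
        smul_mem' := by
          intro c x hx
          change T (π (c • x) ζ) = 0
          rw [map_smul, smul_apply, map_smul, hx, smul_zero] }
    have hcont : Continuous fun x : A => T (π x ζ) := by
      have hπc : Continuous π := by
        refine AddMonoidHomClass.continuous_of_bound π 1 fun a => ?_
        rw [one_mul]
        exact NonUnitalStarAlgHom.norm_apply_le π a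
      fun_prop
    have hMc : IsClosed (M : Set A) := isClosed_eq hcont continuous_const
    have hWSM : WS φ B ≤ M := by
      rw [WS, Submodule.span_le]
      rintro x ⟨L, hL, rfl⟩
      exact hTw L hL
    have hMall : ∀ x : A, T (π x ζ) = 0 := by
      intro x
      have h2 : closure ((StarAlgebra.adjoin ℂ (⋃ i, (B i : Set A)) : StarSubalgebra ℂ A) : Set A)
          ⊆ (M : Set A) := closure_minimal (fun y hy => hWSM (adjoin_le_WS h1 hy)) hMc
      exact h2 (hgen x)
    ext y
    induction y using hd.induction_on with
    | hp => exact isClosed_eq (by fun_prop) (by fun_prop)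
    | ih x =>
      rw [hMall x]
      rfl

end Pool.Agent.Helper40.Free
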