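import Mathlib
import Pool.Agent.Helper40.Free.SG

open Filter Topology MeasureTheory
open scoped InnerProductSpace ComplexConjugate

set_option linter.unusedSectionVars false

namespace Pool.Agent.Helper40.Free

open Pool.Agent.Helper40.Wiener Pool.Agent.Helper40.QFree

variable {K : Type*} [NormedAddCommGroup K] [InnerProductSpace ℂ K] [CompleteSpace K]

/-- bounded sequences -/
def Bd (Y : ℕ → K →L[ℂ] K) : Prop := ∃ C, ∀ n, ‖Y n‖ ≤ C

theorem Bd.mul {Y Z : ℕ → K →L[ℂ] K} (hY : Bd Y) (hZ : Bd Z) : Bd (fun n => Y n * Z n) := by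
  obtain ⟨C, hC⟩ := hY
  obtain ⟨D, hD⟩ := hZ
  have hC0 : 0 ≤ C := (norm_nonneg _).trans (hC 0)
  refine ⟨C * D, fun n => (norm_mul_le _ _).trans ?_⟩
  gcongr
  · exact hC n
  · exact hD n

theorem Bd.sub {Y Z : ℕ → K →L[ℂ] K} (hY : Bd Y) (hZ : Bd Z) : Bd (fun n => Y n - Z n) := by
  obtain ⟨C, hC⟩ := hY
  obtain ⟨D, hD⟩ := hZ
  exact ⟨C + D, fun n => (norm_sub_le _ _).trans (add_le_add (hC n) (hD n))⟩

theorem Bd.one : Bd (fun _ => (1 : K →L[ℂ] K)) := ⟨‖(1 : K →L[ℂ] K)‖, fun _ => le_rfl⟩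

theorem norm_proj_le (P : K →L[ℂ] K) (h1 : star P = P) (h2 : P * P = P) : ‖P‖ ≤ 1 := by
  have h3 : ‖P‖ * ‖P‖ = ‖P‖ := by
    rw [← CStarRing.norm_star_mul_self, h1, h2]
  nlinarith [norm_nonneg P]

/-- a letter moved by the dynamics, with the projection attached to it -/
structure GoodLetter (ν : ℕ → ℂ) (P T : ℕ → K →L[ℂ] K) : Prop where
  sa : ∀ n, star (P n) = P n
  idem : ∀ n, P n * P n = P n
  off : ∀ n, (1 - P n) * T n * (1 - P n) = 0
  bdd : Bd T
  left : ∀ Y, Bd Y → (∀ n, P n * Y n = 0) → SG ν Y → SG ν (fun n => T n * Y n)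
  right : ∀ Y, Bd Y → (∀ n, Y n * P n = 0) → SG ν Y → SG ν (fun n => Y n * T n)
  hP : SG ν P
  hT : SG ν T

theorem GoodLetter.bdP {ν : ℕ → ℂ} {P T : ℕ → K →L[ℂ] K} (h : GoodLetter ν P T) : Bd P :=
  ⟨1, fun n => norm_proj_le _ (h.sa n) (h.idem n)⟩

/-- products of a list of letters -/
def Tw : List ((ℕ → K →L[ℂ] K) × (ℕ → K →L[ℂ] K)) → ℕ → K →L[ℂ] K
  | [], _ => 1
  | p :: L, n => p.2 n * Tw L n

theorem Tw_bd {ν : ℕ → ℂ} (L : List ((ℕ → K →L[ℂ] K) × (ℕ → K →L[ℂ] K)))
    (hL : ∀ p ∈ L, GoodLetter ν p.1 p.2) : Bd (Tw L) := by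
  induction L with
  | nil => exact Bd.one
  | cons p L ih =>
    exact (hL p List.mem_cons_self).bdd.mul (ih fun q hq => hL q (List.mem_cons_of_mem _ hq))

/-- adjacency -/
def Adj (p q : (ℕ → K →L[ℂ] K) × (ℕ → K →L[ℂ] K)) : Prop := ∀ n, p.1 n * q.1 n = 0

theorem right_word {ν : ℕ → ℂ} : ∀ (L : List ((ℕ → K →L[ℂ] K) × (ℕ → K →L[ℂ] K))),
    (∀ p ∈ L, GoodLetter ν p.1 p.2) → L.IsChain Adj → ∀ Y, Bd Y →
    (∀ p ∈ L.head?, ∀ n, Y n * p.1 n = 0) → SG ν Y → SG ν (fun n => Y n * Tw L n)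
  | [], _, _, Y, _, _, hS => hS.congr fun n => by simp [Tw]
  | [p], hL, _, Y, hY, hY0, hS => by
    have hp := hL p List.mem_cons_self
    refine (hp.right Y hY (fun n => hY0 p (by simp) n) hS).congr fun n => ?_
    simp [Tw]
  | p :: q :: L, hL, hc, Y, hY, hY0, hS => by
    have hp := hL p List.mem_cons_self
    have hpq : Adj p q := by
      rw [List.isChain_cons_cons] at hc
      exact hc.1
    have hc' : (q :: L).IsChain Adj := by
      rw [List.isChain_cons_cons] at hc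
      exact hc.2
    have h0 : ∀ n, Y n * p.1 n = 0 := fun n => hY0 p (by simp) n
    have h1 := hp.right Y hY h0 hS
    have h2 := right_word (q :: L) (fun r hr => hL r (List.mem_cons_of_mem _ hr)) hc'
      (fun n => Y n * p.2 n) (hY.mul hp.bdd) ?_ h1
    · refine h2.congr fun n => ?_
      simp only [Tw, mul_assoc]
    · intro r hr n
      have hrq : r = q := by
        simpa using hr.symm
      subst hrq
      have h3 : Y n * p.2 n = Y n * p.2 n * p.1 n := by
        have h4 : Y n * ((1 - p.1 n) * p.2 n * (1 - p.1 n)) = 0 := by rw [hp.off, mul_zero]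
        have h5 : Y n * ((1 - p.1 n) * p.2 n * (1 - p.1 n)) =
            Y n * p.2 n - Y n * p.2 n * p.1 n - (Y n * p.1 n) * (p.2 n * (1 - p.1 n)) := by
          noncomm_ring
        rw [h5, h0, zero_mul, sub_zero] at h4
        exact sub_eq_zero.1 h4
      rw [h3, mul_assoc, hpq n, mul_zero]

theorem word_good {ν : ℕ → ℂ} (h1 : SG ν (fun _ => (1 : K →L[ℂ] K))) :
    ∀ (L : List ((ℕ → K →L[ℂ] K) × (ℕ → K →L[ℂ] K))), L ≠ [] →
    (∀ p ∈ L, GoodLetter ν p.1 p.2) → L.IsChain Adj → SG ν (Tw L)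
  | [], h, _, _ => absurd rfl h
  | [p], _, hL, _ => (hL p List.mem_cons_self).hT.congr fun n => by simp [Tw]
  | p :: q :: L, _, hL, hc => by
    have hp := hL p List.mem_cons_self
    have hpq : Adj p q := by
      rw [List.isChain_cons_cons] at hc
      exact hc.1
    have hc' : (q :: L).IsChain Adj := by
      rw [List.isChain_cons_cons] at hc
      exact hc.2
    have hL' : ∀ r ∈ q :: L, GoodLetter ν r.1 r.2 := fun r hr => hL r (List.mem_cons_of_mem _ hr)
    have ih := word_good h1 (q :: L) (by simp) hL' hc'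
    have hbd := Tw_bd (q :: L) hL'
    -- the part P T_L'
    have hPL : SG ν (fun n => p.1 n * Tw (q :: L) n) :=
      right_word (q :: L) hL' hc' p.1 hp.bdP (fun r hr n => by
        have hrq : r = q := by simpa using hr.symm
        subst hrq
        exact hpq n) hp.hP
    have hA : SG ν (fun n => p.2 n * (Tw (q :: L) n - p.1 n * Tw (q :: L) n)) := by
      apply hp.left _ (hbd.sub (hp.bdP.mul hbd)) _ (ih.sub hPL)
      intro n
      rw [mul_sub, ← mul_assoc, hp.idem, sub_self]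
    have hB1 : SG ν (fun n => p.2 n * (1 - p.1 n)) := by
      apply hp.left _ (Bd.one.sub hp.bdP) _ (h1.sub hp.hP)
      intro n
      rw [mul_sub, mul_one, hp.idem, sub_self]
    have hB2 : SG ν (fun n => p.2 n * p.1 n) :=
      (hp.hT.sub hB1).congr fun n => by noncomm_ring
    have hB3 : SG ν (fun n => (p.2 n * p.1 n) * Tw (q :: L) n) :=
      right_word (q :: L) hL' hc' _ (hp.bdd.mul hp.bdP) (fun r hr n => by
        have hrq : r = q := by simpa using hr.symm
        subst hrq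
        rw [mul_assoc, hpq n, mul_zero]) hB2
    refine (hA.add hB3).congr fun n => ?_
    have h5 : Tw (p :: q :: L) n = p.2 n * Tw (q :: L) n := rfl
    rw [h5]
    noncomm_ring

end Pool.Agent.Helper40.Free
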