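import Mathlib
import Pool.Agent.Helper40.Free.Proj2
import Pool.Agent.Helper40.Free.Words

open Filter Topology MeasureTheory
open scoped InnerProductSpace ComplexConjugate ArithmeticFunction.Moebius

set_option linter.unusedSectionVars false

namespace Pool.Agent.Helper40.Free

open Pool.Agent.Helper40.Wiener Pool.Agent.Helper40.QFree Pool.Agent.Helper40.Mob

universe u

variable {A : Type u} [CStarAlgebra A] {ι : Type*}

section polar

variable {K : Type*} [NormedAddCommGroup K] [InnerProductSpace ℂ K] [CompleteSpace K]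

/-- polarization -/
theorem SG_of_diag {ν : ℕ → ℂ} {T : ℕ → K →L[ℂ] K}
    (h : ∀ z : ℂ, ‖z‖ = 1 → ∀ x : K, Tendsto (fun N : ℕ =>
      (∑ n ∈ Finset.range N, ν n * z ^ n * inner ℂ x (T n x)) / (N : ℂ)) atTop (𝓝 0)) :
    SG ν T := by
  intro z hz x y
  have hpol : ∀ n, inner ℂ x (T n y) = (1 / 4 : ℂ) * (inner ℂ (y + x) (T n (y + x)) -
      inner ℂ (y - x) (T n (y - x)) + Complex.I * inner ℂ (y + Complex.I • x) (T n (y + Complex.I • x)) -
      Complex.I * inner ℂ (y - Complex.I • x) (T n (y - Complex.I • x))) := by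
    intro n
    simp only [map_add, map_sub, map_smul, inner_add_left, inner_add_right, inner_sub_left,
      inner_sub_right, inner_smul_left, inner_smul_right, Complex.conj_I]
    linear_combination ((1 : ℂ) / 2) * (inner ℂ x (T n y) - inner ℂ y (T n x)) * Complex.I_sq
  have h1 := h z hz (y + x)
  have h2 := h z hz (y - x)
  have h3 := h z hz (y + Complex.I • x)
  have h4 := h z hz (y - Complex.I • x)
  have h5 := (((h1.sub h2).add (h3.const_mul Complex.I)).sub (h4.const_mul Complex.I)).const_mul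
    (1 / 4 : ℂ)
  simp only [mul_zero, sub_zero, add_zero] at h5
  refine h5.congr fun N => ?_
  simp only [hpol]
  rw [← sub_div, mul_div_assoc', mul_div_assoc', ← add_div, ← sub_div, mul_div_assoc']
  congr 1
  rw [Finset.mul_sum, Finset.mul_sum, ← Finset.sum_sub_distrib, ← Finset.sum_add_distrib,
    ← Finset.sum_sub_distrib, Finset.mul_sum]
  apply Finset.sum_congr rfl
  intro n _
  ring

/-- vector functionals are multiples of states -/
theorem vector_state (π : A →⋆ₐ[ℂ] (K →L[ℂ] K)) (x : K) (hx : x ≠ 0) :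
    ∃ ρ : A →L[ℂ] ℂ, IsState ρ ∧ ∀ a, inner ℂ x (π a x) = ((‖x‖ ^ 2 : ℝ) : ℂ) * ρ a := by
  have hx0 : ‖x‖ ≠ 0 := norm_ne_zero_iff.2 hx
  have hx2 : (((‖x‖ ^ 2 : ℝ)) : ℂ) ≠ 0 := by
    exact_mod_cast pow_ne_zero 2 hx0
  let r : A →ₗ[ℂ] ℂ :=
    { toFun := fun a => (((‖x‖ ^ 2 : ℝ)) : ℂ)⁻¹ * inner ℂ x (π a x)
      map_add' := fun a b => by rw [map_add, add_apply, inner_add_right, mul_add]
      map_smul' := fun c a => by
        rw [map_smul, smul_apply, inner_smul_right]
        simp only [RingHom.id_apply, smul_eq_mul]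
        ring }
  have hb : ∀ a, ‖r a‖ ≤ 1 * ‖a‖ := by
    intro a
    change ‖(((‖x‖ ^ 2 : ℝ)) : ℂ)⁻¹ * inner ℂ x (π a x)‖ ≤ _
    rw [norm_mul, norm_inv, Complex.norm_real, Real.norm_of_nonneg (by positivity)]
    rw [inv_mul_le_iff₀ (by positivity)]
    refine (norm_inner_le_norm _ _).trans ?_
    have h1 : ‖π a x‖ ≤ ‖a‖ * ‖x‖ := by
      refine (ContinuousLinearMap.le_opNorm _ _).trans ?_
      gcongr
      exact NonUnitalStarAlgHom.norm_apply_le π a
    calc _ ≤ ‖x‖ * (‖a‖ * ‖x‖) := by gcongr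
      _ = _ := by ring
  let ρ : A →L[ℂ] ℂ := r.mkContinuous 1 hb
  have hρa : ∀ a, ρ a = (((‖x‖ ^ 2 : ℝ)) : ℂ)⁻¹ * inner ℂ x (π a x) := fun a => rfl
  have hρ1 : ρ 1 = 1 := by
    rw [hρa, map_one, one_apply_eq_self, inner_self_eq_norm_sq_to_K]
    push_cast at hx2 ⊢
    exact inv_mul_cancel₀ hx2
  refine ⟨ρ, isState_of_norm ρ hρ1 ?_, fun a => ?_⟩
  · apply le_antisymm (r.mkContinuous_norm_le zero_le_one hb)
    have hnt : Nontrivial A := by
      by_contra h
      rw [not_nontrivial_iff_subsingleton] at h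
      rw [Subsingleton.elim (1 : A) 0, map_zero] at hρ1
      exact zero_ne_one hρ1
    have h2 := ρ.le_opNorm 1
    rw [hρ1, norm_one, norm_one, mul_one] at h2
    exact h2
  · rw [hρa, mul_inv_cancel_left₀ hx2]

/-- twisted disjointness gives weak twisted averages in every representation -/
theorem SG_of_twisted (α : A → A) (a : A) (h : TwistedDisjoint α a) (π : A →⋆ₐ[ℂ] (K →L[ℂ] K))
    (hb : ∃ C, ∀ n, ‖α^[n] a‖ ≤ C) :
    SG (fun n => (μ n : ℂ)) (fun n => π (α^[n] a)) := by
  obtain ⟨C, hC⟩ := hb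
  apply SG_of_diag
  intro z hz x
  by_cases hx : x = 0
  · subst hx
    simp
  obtain ⟨ρ, hρ, h1⟩ := vector_state π x hx
  have h2 := range_of_Icc (fun n => (μ n : ℂ) * z ^ n * ρ (α^[n] a)) (‖ρ‖ * C) (fun n => by
    rw [norm_mul, norm_mul, norm_pow, hz, one_pow, mul_one]
    calc _ ≤ 1 * (‖ρ‖ * C) := by
          gcongr
          · exact norm_moebius n
          · refine (ρ.le_opNorm _).trans ?_
            gcongr
            exact hC n
      _ = _ := one_mul _) (h ρ hρ z hz)
  have h3 := h2.const_mul (((‖x‖ ^ 2 : ℝ)) : ℂ)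
  rw [mul_zero] at h3
  refine h3.congr fun N => ?_
  rw [mul_div_assoc', Finset.mul_sum]
  congr 1
  apply Finset.sum_congr rfl
  intro n _
  rw [h1]
  ring

end polar

/-- the main theorem -/
theorem free_main (φ : A →L[ℂ] ℂ) (hφ : IsState φ)
    (hfaith : ∀ a, (∀ x y, φ (x * a * y) = 0) → a = 0)
    (B : ι → StarSubalgebra ℂ A) (hfree : IsFree φ B)
    (hgen : Dense ((StarAlgebra.adjoin ℂ (⋃ i, (B i : Set A)) : StarSubalgebra ℂ A) : Set A))
    (α : A →⋆ₐ[ℂ] A) (hα : ∀ a, φ (α a) = φ a)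
    (σ : ι → ι) (hσ : Function.Injective σ) (hB : ∀ i, ∀ a ∈ B i, α a ∈ B (σ i))
    (h : ∀ i, (∃ p : ℕ, 1 ≤ p ∧ σ^[p] i = i) → ∀ a ∈ B i, φ a = 0 → TwistedDisjoint α a) :
    ∀ a, TwistedDisjoint α a := by
  classical
  obtain ⟨H, _, _, _, π, ζ, hζ, hd⟩ := exists_gns_cyc φ hφ
  have hπinj : Function.Injective π := by
    rw [injective_iff_map_eq_zero]
    intro a ha
    apply hfaith
    intro x y
    rw [hζ, map_mul, map_mul, ha]
    simp
  have hstar : ∀ a, φ (star a) = conj (φ a) := by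
    intro a
    rw [hζ, hζ, map_star, inner_star_right, inner_conj_symm]
  have hone : φ 1 = 1 := state_one φ hφ
  obtain ⟨U, hU, hUa⟩ := exists_isom φ π ζ hζ hd α hα
  obtain ⟨P, hP1, hP2, hP3, hP4⟩ := exists_proj hfree hstar hone hgen π ζ hζ hd
  intro a₀ ρ hρ z₀ hz₀
  obtain ⟨g, hg, hgρ⟩ := state_ext π hπinj ρ hρ
  obtain ⟨K, _, _, _, τ, ξ, hξ⟩ := exists_gns g hg
  -- iterates
  have hαn : ∀ (n : ℕ) (i : ι) (a : A), a ∈ B i → α^[n] a ∈ B (σ^[n] i) := by
    intro n
    induction n with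
    | zero => intro i a ha; exact ha
    | succ n ih =>
      intro i a ha
      rw [Function.iterate_succ', Function.iterate_succ']
      exact hB _ _ (ih i a ha)
  have hφn : ∀ (n : ℕ) (a : A), φ (α^[n] a) = φ a := by
    intro n
    induction n with
    | zero => intro a; rfl
    | succ n ih =>
      intro a
      rw [Function.iterate_succ', Function.comp_apply, hα, ih]
  have hUn : ∀ (n : ℕ) (a : A), (U ^ n) (π a ζ) = π (α^[n] a) ζ := by
    intro n
    induction n with
    | zero => intro a; rfl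
    | succ n ih =>
      intro a
      rw [pow_succ', mul_apply_eq_comp, ih, hUa, Function.iterate_succ', Function.comp_apply]
  have hαstar : ∀ (n : ℕ) (a : A), α^[n] (star a) = star (α^[n] a) := by
    intro n
    induction n with
    | zero => intro a; rfl
    | succ n ih =>
      intro a
      rw [Function.iterate_succ', Function.comp_apply, Function.comp_apply, ih, map_star]
  have hin : ∀ a b, inner ℂ (π a ζ) (π b ζ) = φ (star a * b) := by
    intro a b
    rw [hζ, map_mul, map_star, mul_apply_eq_comp, inner_star_right]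
  have hFS : ∀ (a : A) (m : ℕ), IsFS (fun n => φ (star (α^[m] a) * α^[n] a)) := by
    intro a m
    have h1 := fs_isometry U hU (π a ζ) m
    simp only [hUn, hin] at h1
    exact h1
  have hτb : ∀ T, ‖τ T‖ ≤ ‖T‖ := fun T => NonUnitalStarAlgHom.norm_apply_le τ T
  have hπb : ∀ a, ‖π a‖ ≤ ‖a‖ := fun a => NonUnitalStarAlgHom.norm_apply_le π a
  have hPn : ∀ i, ‖P i‖ ≤ 1 := fun i => norm_proj_le _ (hP1 i) (hP2 i)
  have hbT : ∀ (a : A) (n : ℕ), ‖τ (π (α^[n] a))‖ ≤ ‖a‖ := fun a n =>
    (hτb _).trans ((hπb _).trans (iterate_norm_le α n a))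
  -- the Gram relation
  have hR : ∀ (i : ι) (b : A), b ∈ B i → φ b = 0 → ∀ m n : ℕ,
      (1 - P (σ^[m] i)) * star (π (α^[m] b)) * π (α^[n] b) * (1 - P (σ^[n] i)) =
        φ (star (α^[m] b) * α^[n] b) • (1 - P (σ^[n] i)) := by
    intro i b hb hb0 m n
    have hm := hαn m i b hb
    have hn := hαn n i b hb
    have hm0 : φ (α^[m] b) = 0 := by rw [hφn, hb0]
    have hn0 : φ (α^[n] b) = 0 := by rw [hφn, hb0]
    by_cases hmn : σ^[m] i = σ^[n] i
    · rw [hmn] at hm ⊢
      set c := star (α^[m] b) * α^[n] b with hc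
      have hcB : c ∈ B (σ^[n] i) := mul_mem (star_mem hm) hn
      have h1 := hP4 (σ^[n] i) (c - φ c • (1 : A)) (sub_mem hcB ((B _).smul_mem (one_mem _) _))
        (by rw [map_sub, map_smul, hone, smul_eq_mul, mul_one, sub_self])
      rw [map_sub, map_smul, map_one, hc, map_mul, map_star] at h1
      have h2' : ∀ (Q X Y : H →L[ℂ] H) (c : ℂ), Q * (X * Y - c • 1) * Q =
          Q * X * Y * Q - c • (Q * Q) := by
        intro Q X Y c
        rw [mul_sub, sub_mul, mul_smul_comm, mul_one, smul_mul_assoc, mul_assoc Q X Y]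
      have h2 := h2' (1 - P (σ^[n] i)) (star (π (α^[m] b))) (π (α^[n] b)) (φ c)
      have h3 : (1 - P (σ^[n] i)) * (1 - P (σ^[n] i)) = 1 - P (σ^[n] i) := by
        have := hP2 (σ^[n] i)
        calc _ = 1 - P (σ^[n] i) - P (σ^[n] i) + P (σ^[n] i) * P (σ^[n] i) := by noncomm_ring
          _ = _ := by rw [this]; abel
      rw [h2, h3] at h1
      exact sub_eq_zero.1 h1
    · have h0 : φ (star (α^[m] b) * α^[n] b) = 0 := by
        have h1 := phi_word_word hstar hfree (L := [(σ^[m] i, α^[m] b)])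
          (M := [(σ^[n] i, α^[n] b)])
          ((IsW.nil φ B).cons hm hm0 (by simp)) ((IsW.nil φ B).cons hn hn0 (by simp))
          (Or.inl (by simp)) (by
            intro p hp q hq
            simp only [List.head?_cons, Option.mem_def, Option.some.injEq] at hp hq
            rw [← hp, ← hq]
            exact hmn)
        simpa [val] using h1
      rw [h0, zero_smul]
      have h1 := hP4 _ _ hn hn0
      have h2 := hP4 _ _ (star_mem hm) (by rw [hstar, hm0, map_zero])
      rw [map_star] at h2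
      have h3 : π (α^[n] b) * (1 - P (σ^[n] i)) =
          P (σ^[n] i) * π (α^[n] b) * (1 - P (σ^[n] i)) := by
        have : π (α^[n] b) * (1 - P (σ^[n] i)) - P (σ^[n] i) * π (α^[n] b) * (1 - P (σ^[n] i)) =
          (1 - P (σ^[n] i)) * π (α^[n] b) * (1 - P (σ^[n] i)) := by noncomm_ring
        rw [h1] at this
        exact sub_eq_zero.1 this
      have h4 : (1 - P (σ^[m] i)) * star (π (α^[m] b)) =
          (1 - P (σ^[m] i)) * star (π (α^[m] b)) * P (σ^[m] i) := by
        have : (1 - P (σ^[m] i)) * star (π (α^[m] b)) -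
          (1 - P (σ^[m] i)) * star (π (α^[m] b)) * P (σ^[m] i) =
          (1 - P (σ^[m] i)) * star (π (α^[m] b)) * (1 - P (σ^[m] i)) := by noncomm_ring
        rw [h2] at this
        exact sub_eq_zero.1 this
      rw [mul_assoc, h3, h4]
      have h5 := hP3 _ _ hmn
      calc _ = (1 - P (σ^[m] i)) * star (π (α^[m] b)) * (P (σ^[m] i) * P (σ^[n] i)) *
            (π (α^[n] b) * (1 - P (σ^[n] i))) := by simp only [mul_assoc]
        _ = 0 := by rw [h5, mul_zero, zero_mul]
  -- left multiplication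
  have hleft : ∀ (ν : ℕ → ℂ), (∀ n, ‖ν n‖ ≤ 1) → ∀ (i : ι) (b : A), b ∈ B i → φ b = 0 →
      ∀ Y : ℕ → K →L[ℂ] K, Bd Y → (∀ n, τ (P (σ^[n] i)) * Y n = 0) → SG ν Y →
        SG ν (fun n => τ (π (α^[n] b)) * Y n) := by
    intro ν hν i b hb hb0 Y hY hPY hSG
    obtain ⟨C, hC⟩ := hY
    refine SG_left hν (Q := fun n => τ (1 - P (σ^[n] i))) (hbT b) hC (fun n => ?_) (fun n => ?_)
      (fun m n => φ (star (α^[m] b) * α^[n] b)) (fun m n => ?_) (hFS b) hSG
    · rw [← map_star, star_sub, star_one, hP1]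
    · rw [map_sub, map_one, sub_mul, one_mul, hPY, sub_zero]
    · rw [← map_star, ← map_mul, ← map_mul, ← map_mul, hR i b hb hb0, map_smul]
  have hright : ∀ (ν : ℕ → ℂ), (∀ n, ‖ν n‖ ≤ 1) → ∀ (i : ι) (b : A), b ∈ B i → φ b = 0 →
      ∀ Y : ℕ → K →L[ℂ] K, Bd Y → (∀ n, Y n * τ (P (σ^[n] i)) = 0) → SG ν Y →
        SG ν (fun n => Y n * τ (π (α^[n] b))) := by
    intro ν hν i b hb hb0 Y hY hPY hSG
    obtain ⟨C, hC⟩ := hY
    have h1 := hleft (fun n => conj (ν n)) (fun n => by rw [RCLike.norm_conj]; exact hν n) i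
      (star b) (star_mem hb) (by rw [hstar, hb0, map_zero]) (fun n => star (Y n))
      ⟨C, fun n => by rw [norm_star]; exact hC n⟩ (fun n => by
        rw [← hP1, map_star, ← star_mul, hPY, star_zero]) hSG.star
    have h2 := h1.star
    simp only [Complex.conj_conj] at h2
    refine h2.congr fun n => ?_
    rw [star_mul, star_star, hαstar, map_star, map_star, star_star]
  -- good letters
  have hgood : ∀ (i : ι) (b : A), b ∈ B i → φ b = 0 → GoodLetter (fun n => (μ n : ℂ))
      (fun n => τ (P (σ^[n] i))) (fun n => τ (π (α^[n] b))) := by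
    intro i b hb hb0
    have hsa : ∀ n, star (τ (P (σ^[n] i))) = τ (P (σ^[n] i)) := fun n => by
      rw [← map_star, hP1]
    have hid : ∀ n, τ (P (σ^[n] i)) * τ (P (σ^[n] i)) = τ (P (σ^[n] i)) := fun n => by
      rw [← map_mul, hP2]
    have hoff : ∀ n, (1 - τ (P (σ^[n] i))) * τ (π (α^[n] b)) * (1 - τ (P (σ^[n] i))) = 0 := by
      intro n
      rw [← map_one τ, ← map_sub, ← map_mul, ← map_mul, hP4 _ _ (hαn n i b hb)
        (by rw [hφn, hb0]), map_zero]
    have hbP : Bd (fun n => τ (P (σ^[n] i))) := ⟨1, fun n => (hτb _).trans (hPn _)⟩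
    have hSP : SG (fun n => (μ n : ℂ)) (fun n => τ (P (σ^[n] i))) := by
      by_cases hper : ∃ p : ℕ, 1 ≤ p ∧ σ^[p] i = i
      · obtain ⟨p, hp, hpi⟩ := hper
        apply SG_periodic orthLin_moebius _ p hp
        intro n
        rw [Function.iterate_add_apply, hpi]
      · apply SG_of_orth norm_moebius (cY := 1) (fun n => (hτb _).trans (hPn _)) hsa _ hid
        intro m n hmn
        have h1 : σ^[m] i ≠ σ^[n] i := by
          intro h2
          apply hper
          rcases lt_or_gt_of_ne hmn with h3 | h3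
          · refine ⟨n - m, by omega, ?_⟩
            have h4 : σ^[m] (σ^[n - m] i) = σ^[m] i := by
              rw [← Function.iterate_add_apply, Nat.add_sub_cancel' h3.le, h2]
            exact hσ.iterate m h4
          · refine ⟨m - n, by omega, ?_⟩
            have h4 : σ^[n] (σ^[m - n] i) = σ^[n] i := by
              rw [← Function.iterate_add_apply, Nat.add_sub_cancel' h3.le, h2]
            exact hσ.iterate n h4
        rw [← map_mul, hP3 _ _ h1, map_zero]
    have hSQ : SG (fun n => (μ n : ℂ)) (fun n => 1 - τ (P (σ^[n] i))) :=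
      (SG_const orthLin_moebius 1).sub hSP
    have hST : SG (fun n => (μ n : ℂ)) (fun n => τ (π (α^[n] b))) := by
      by_cases hper : ∃ p : ℕ, 1 ≤ p ∧ σ^[p] i = i
      · have h1 := SG_of_twisted (K := K) α b (h i hper b hb hb0)
          ((τ : (H →L[ℂ] H) →⋆ₐ[ℂ] (K →L[ℂ] K)).comp π) ⟨‖b‖, fun n => iterate_norm_le α n b⟩
        exact h1
      · have h1 := hleft _ norm_moebius i b hb hb0 (fun n => 1 - τ (P (σ^[n] i)))
          (Bd.one.sub hbP) (fun n => by rw [mul_sub, mul_one, hid, sub_self]) hSQ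
        have h2 := hright _ norm_moebius i b hb hb0 (fun n => 1 - τ (P (σ^[n] i)))
          (Bd.one.sub hbP) (fun n => by rw [sub_mul, one_mul, hid, sub_self]) hSQ
        have h3 : SG (fun n => (μ n : ℂ))
            (fun n => τ (P (σ^[n] i)) * τ (π (α^[n] b)) * τ (P (σ^[n] i))) := by
          obtain ⟨C, hC⟩ := (hbP.mul (Z := fun n => τ (π (α^[n] b))) ⟨‖b‖, hbT b⟩).mul hbP
          apply SG_of_orth norm_moebius hC hsa
          · intro m n hmn
            have h1 : σ^[m] i ≠ σ^[n] i := by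
              intro h2
              apply hper
              rcases lt_or_gt_of_ne hmn with h3 | h3
              · refine ⟨n - m, by omega, ?_⟩
                have h4 : σ^[m] (σ^[n - m] i) = σ^[m] i := by
                  rw [← Function.iterate_add_apply, Nat.add_sub_cancel' h3.le, h2]
                exact hσ.iterate m h4
              · refine ⟨m - n, by omega, ?_⟩
                have h4 : σ^[n] (σ^[m - n] i) = σ^[n] i := by
                  rw [← Function.iterate_add_apply, Nat.add_sub_cancel' h3.le, h2]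
                exact hσ.iterate n h4
            rw [← map_mul, hP3 _ _ h1, map_zero]
          · intro n
            rw [← mul_assoc, ← mul_assoc, hid]
        refine ((h1.add h2).add h3).congr fun n => ?_
        have h4 := hoff n
        have h5 : τ (π (α^[n] b)) * (1 - τ (P (σ^[n] i))) + (1 - τ (P (σ^[n] i))) * τ (π (α^[n] b)) +
            τ (P (σ^[n] i)) * τ (π (α^[n] b)) * τ (P (σ^[n] i)) = τ (π (α^[n] b)) +
            (1 - τ (P (σ^[n] i))) * τ (π (α^[n] b)) * (1 - τ (P (σ^[n] i))) := by noncomm_ring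
        rw [h5, h4, add_zero]
    exact ⟨hsa, hid, hoff, ⟨‖b‖, hbT b⟩, fun Y => hleft _ norm_moebius i b hb hb0 Y,
      fun Y => hright _ norm_moebius i b hb hb0 Y, hSP, hST⟩
  -- words
  let F : ι × A → (ℕ → K →L[ℂ] K) × (ℕ → K →L[ℂ] K) := fun p =>
    (fun n => τ (P (σ^[n] p.1)), fun n => τ (π (α^[n] p.2)))
  have hTw : ∀ (L : List (ι × A)) (n : ℕ), Tw (L.map F) n = τ (π (α^[n] (val L))) := by
    intro L n
    induction L with
    | nil =>
      rw [val_nil, iterate_map_one]
      simp [Tw]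
    | cons p L ih =>
      rw [List.map_cons, Tw, ih, val_cons, iterate_map_mul, map_mul, map_mul]
  have hword : ∀ L, IsW φ B L → L ≠ [] → SG (fun n => (μ n : ℂ)) (fun n => τ (π (α^[n] (val L)))) := by
    intro L hL hne
    have h1 := word_good (SG_const orthLin_moebius (1 : K →L[ℂ] K)) (L.map F) (by simpa using hne)
      (by
        intro q hq
        obtain ⟨p, hp, rfl⟩ := List.mem_map.1 hq
        exact hgood p.1 p.2 (hL.1 p hp).1 (hL.1 p hp).2)
      (by
        rw [List.isChain_map]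
        refine hL.2.imp fun p q hpq n => ?_
        change τ (P (σ^[n] p.1)) * τ (P (σ^[n] q.1)) = 0
        rw [← map_mul, hP3 _ _ (fun h => hpq (hσ.iterate n h)), map_zero])
    exact h1.congr fun n => hTw L n
  -- conclusion
  have hρb : ∀ x, ‖ρ x‖ ≤ ‖x‖ := fun x => by
    have := ρ.le_opNorm x
    rwa [hρ.2, one_mul] at this
  let T : ℕ → A →ₗ[ℂ] ℂ := fun n => (ρ : A →ₗ[ℂ] ℂ) ∘ₗ iterL α n
  have hT : ∀ n x, ‖T n x‖ ≤ ‖x‖ := fun n x => (hρb _).trans (iterate_norm_le α n x)
  let w : ℕ → ℂ := fun n => (μ n : ℂ) * z₀ ^ n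
  have hw : ∀ n, ‖w n‖ ≤ 1 := fun n => by
    simp only [w]
    rw [norm_mul, norm_pow, hz₀, one_pow, mul_one]
    exact norm_moebius n
  have hcl := goodL_closed T w hw hT
  have hle : WS φ B ≤ goodL T w := by
    rw [WS, Submodule.span_le]
    rintro x ⟨L, hL, rfl⟩
    have hSG : SG (fun n => (μ n : ℂ)) (fun n => τ (π (α^[n] (val L)))) := by
      by_cases h0 : L = []
      · subst h0
        refine (SG_const orthLin_moebius (1 : K →L[ℂ] K)).congr fun n => ?_
        rw [val_nil, iterate_map_one, map_one, map_one]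
      · exact hword L hL h0
    have h1 := (hSG z₀ hz₀ ξ ξ).norm
    rw [norm_zero] at h1
    change Tendsto _ _ _
    refine h1.congr fun N => ?_
    rw [norm_div, Complex.norm_natCast]
    congr 2
    apply Finset.sum_congr rfl
    intro n _
    change _ = w n • ρ (α^[n] (val L))
    rw [← hgρ, hξ, smul_eq_mul]
  have hu : a₀ ∈ goodL T w := by
    have h2 : closure ((StarAlgebra.adjoin ℂ (⋃ i, (B i : Set A)) : StarSubalgebra ℂ A) : Set A)
        ⊆ (goodL T w : Set A) :=
      closure_minimal (fun x hx => hle (adjoin_le_WS hone hx)) hcl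
    exact h2 (hgen a₀)
  have hu' : Tendsto (fun N : ℕ => ‖∑ n ∈ Finset.range N, w n • T n a₀‖ / (N : ℝ))
    atTop (𝓝 0) := hu
  apply Icc_of_range _ ‖a₀‖
  · intro n
    rw [norm_mul]
    calc _ ≤ 1 * ‖a₀‖ := by
          gcongr
          · exact hw n
          · exact hT n a₀
      _ = _ := one_mul _
  · rw [tendsto_zero_iff_norm_tendsto_zero]
    refine hu'.congr fun N => ?_
    rw [norm_div, Complex.norm_natCast]
    rfl

end Pool.Agent.Helper40.Free
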