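import Mathlib
import Pool.Agent.Helper40.Wiener7
import Pool.Agent.Helper40.QFree
import Pool.Agent.Helper40.Free.FDefs

open Filter Topology MeasureTheory Polynomial
open scoped InnerProductSpace ComplexConjugate FourierTransform ArithmeticFunction.Moebius

set_option linter.unusedSectionVars false

namespace Pool.Agent.Helper40.Free

open Pool.Agent.Helper40.Wiener Pool.Agent.Helper40.QFree Pool.Agent.Helper40.Mob

universe u

variable {A : Type u} [CStarAlgebra A]

theorem torus_tw (α : A →⋆ₐ[ℂ] A) (p : ℕ) (hp : 1 ≤ p) (G : Subgroup (unitary A))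
    (hcomm : ∀ g ∈ G, ∀ h ∈ G, ∃ c : ℂ, (g : A) * (h : A) = c • ((h : A) * (g : A)))
    (hα : ∀ g ∈ G, ∃ g' ∈ G, (g' : A) = α^[p] (g : A))
    (hqd : ∀ g ∈ G, ∃ m : ℕ, 1 ≤ m ∧ ∃ k : ℕ, ∃ c : ℂ,
      (mdiff α (p * m))^[k] (g : A) = c • (1 : A))
    (u : A) (hu₀ : u ∈ closure ((Submodule.span ℂ {x : A | ∃ g ∈ G, (g : A) = x} :
      Submodule ℂ A) : Set A)) : TwistedDisjoint α u := by
  classical
  intro ρ hρ z hz
  have hnt : Nontrivial A := by
    by_contra h
    rw [not_nontrivial_iff_subsingleton] at h
    have h1 : ρ = 0 := by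
      ext x
      rw [Subsingleton.elim x 0]
      simp
    have := hρ.2
    rw [h1, norm_zero] at this
    exact zero_ne_one this
  have hn1 : ∀ g : unitary A, ‖(g : A)‖ = 1 := fun g => CStarRing.norm_coe_unitary g
  have hρb : ∀ x, ‖ρ x‖ ≤ ‖x‖ := fun x => by
    have := ρ.le_opNorm x
    rwa [hρ.2, one_mul] at this
  let w : ℕ → ℂ := fun n => (μ n : ℂ) * z ^ n
  have hw : ∀ n, ‖w n‖ ≤ 1 := fun n => by
    simp only [w]
    rw [norm_mul, norm_pow, hz, one_pow, mul_one]
    exact norm_moebius n
  -- reduction to group elements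
  suffices hG : ∀ g ∈ G, Tendsto (fun N : ℕ =>
      (∑ n ∈ Finset.range N, w n * ρ (α^[n] (g : A))) / (N : ℂ)) atTop (𝓝 0) by
    let T : ℕ → A →ₗ[ℂ] ℂ := fun n => (ρ : A →ₗ[ℂ] ℂ) ∘ₗ iterL α n
    have hT : ∀ n x, ‖T n x‖ ≤ ‖x‖ := fun n x => (hρb _).trans (iterate_norm_le α n x)
    have hcl := goodL_closed T w hw hT
    have hle : Submodule.span ℂ {x : A | ∃ g ∈ G, (g : A) = x} ≤ goodL T w := by
      rw [Submodule.span_le]
      rintro x ⟨g, hg, rfl⟩
      have h1 := (hG g hg).norm
      rw [norm_zero] at h1
      change Tendsto _ _ _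
      refine h1.congr fun N => ?_
      rw [norm_div, Complex.norm_natCast]
      rfl
    have hu : u ∈ goodL T w := by
      have h2 : closure ((Submodule.span ℂ {x : A | ∃ g ∈ G, (g : A) = x} : Submodule ℂ A) : Set A)
          ⊆ (goodL T w : Set A) := closure_minimal hle hcl
      exact h2 hu₀
    have hu' : Tendsto (fun N : ℕ => ‖∑ n ∈ Finset.range N, w n • T n u‖ / (N : ℝ))
      atTop (𝓝 0) := hu
    apply Icc_of_range _ ‖u‖
    · intro n
      rw [norm_mul]
      calc _ ≤ 1 * ‖u‖ := by
            gcongr
            · exact hw n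
            · exact hT n u
        _ = _ := one_mul _
    · rw [tendsto_zero_iff_norm_tendsto_zero]
      refine hu'.congr fun N => ?_
      rw [norm_div, Complex.norm_natCast]
      rfl
  intro g hg
  obtain ⟨H, _, _, _, π₀, ζ, hζ⟩ := exists_gns ρ hρ
  obtain ⟨m₀, hm₀, k, c, hk⟩ := hqd g hg
  set m := p * m₀ with hmdef
  have hm : 1 ≤ m := Nat.mul_pos hp hm₀
  obtain ⟨θ₀, hθ₀⟩ := exists_phase z hz
  -- the iterate of order m preserves the group
  have hGm : ∀ (j : ℕ) (x : unitary A), x ∈ G → ∃ y ∈ G, (y : A) = α^[p * j] (x : A) := by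
    intro j
    induction j with
    | zero => intro x hx; exact ⟨x, hx, rfl⟩
    | succ j ih =>
      intro x hx
      obtain ⟨y, hy, h1⟩ := ih x hx
      obtain ⟨y', hy', h2⟩ := hα y hy
      refine ⟨y', hy', ?_⟩
      rw [h2, h1, ← Function.iterate_add_apply, show p * (j + 1) = p + p * j by ring]
  apply residue_split _ 1 _ m hm
  · intro r hr
    -- the group in the residue class
    let G' : Subgroup (unitary A) :=
      { carrier := {x | ∃ y ∈ G, (x : A) = α^[r] (y : A)}
        mul_mem' := by
          rintro x y ⟨x', hx', h1⟩ ⟨y', hy', h2⟩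
          refine ⟨x' * y', G.mul_mem hx' hy', ?_⟩
          rw [Submonoid.coe_mul, Submonoid.coe_mul, h1, h2, iterate_map_mul]
        one_mem' := ⟨1, G.one_mem, by
          rw [OneMemClass.coe_one, iterate_map_one]⟩
        inv_mem' := by
          rintro x ⟨x', hx', h1⟩
          refine ⟨x'⁻¹, G.inv_mem hx', ?_⟩
          have h2 : ∀ (n : ℕ) (a : A), α^[n] (star a) = star (α^[n] a) := by
            intro n
            induction n with
            | zero => intro a; rfl
            | succ n ih =>
              intro a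
              rw [Function.iterate_succ', Function.comp_apply, Function.comp_apply, ih, map_star]
          change star (x : A) = α^[r] (star (x' : A))
          rw [h2, h1] }
    have hcomm' : ∀ g ∈ G', ∀ h ∈ G', ∃ θ : ℝ,
        (g : A) * (h : A) = (𝐞 θ : ℂ) • ((h : A) * (g : A)) := by
      rintro x ⟨x', hx', h1⟩ y ⟨y', hy', h2⟩
      obtain ⟨c, hc⟩ := hcomm x' hx' y' hy'
      have h3 : ‖c‖ = 1 := by
        have h2 : ‖((x' * y' : unitary A) : A)‖ = ‖c • ((y' * x' : unitary A) : A)‖ := by
          rw [Submonoid.coe_mul, Submonoid.coe_mul, hc]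
        rw [norm_smul, hn1, hn1, mul_one] at h2
        exact h2.symm
      obtain ⟨θ, hθ⟩ := exists_phase c h3
      refine ⟨θ, ?_⟩
      rw [h1, h2, ← iterate_map_mul, hc, ← iterate_map_mul, ← hθ]
      exact map_smul (iterL α r) c _
    let π : G' →* (H →L[ℂ] H) :=
      { toFun := fun x => π₀ ((x : unitary A) : A)
        map_one' := by simp
        map_mul' := fun x y => by simp }
    have hπ : ∀ x, π x ∈ unitary (H →L[ℂ] H) := by
      intro x
      have h1 := (x : unitary A).2
      exact Unitary.map_mem π₀ h1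
    have hπc : ∀ x y, ∃ c : ℂ, ‖c‖ = 1 ∧ π (x * y) = c • π (y * x) := by
      intro x y
      obtain ⟨θ, hθ⟩ := hcomm' x x.2 y y.2
      refine ⟨(𝐞 θ : ℂ), Circle.norm_coe _, ?_⟩
      change π₀ _ = _ • π₀ _
      rw [← map_smul]
      congr 1
    have hGα : ∀ (x : unitary A), x ∈ G' → ∃ y ∈ G', (y : A) = α^[m] (x : A) := by
      rintro x ⟨x', hx', h1⟩
      obtain ⟨y, hy, h2⟩ := hGm m₀ x' hx'
      have h3 : α^[r] (y : A) ∈ unitary A := by
        have h4 : star (y : A) * y = 1 := (Unitary.mem_iff.1 y.2).1
        have h5 : (y : A) * star (y : A) = 1 := (Unitary.mem_iff.1 y.2).2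
        have h6 : α^[r] (star (y : A)) = star (α^[r] (y : A)) := by
          have : ∀ (n : ℕ) (a : A), α^[n] (star a) = star (α^[n] a) := by
            intro n
            induction n with
            | zero => intro a; rfl
            | succ n ih =>
              intro a
              rw [Function.iterate_succ', Function.comp_apply, Function.comp_apply, ih, map_star]
          exact this r _
        rw [Unitary.mem_iff]
        constructor
        · rw [← h6, ← iterate_map_mul, h4, iterate_map_one]
        · rw [← h6, ← iterate_map_mul, h5, iterate_map_one]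
      refine ⟨⟨α^[r] (y : A), h3⟩, ⟨y, hy, rfl⟩, ?_⟩
      change α^[r] (y : A) = _
      rw [h1, h2, ← Function.iterate_add_apply, ← Function.iterate_add_apply,
        show m + r = r + p * m₀ by rw [hmdef, add_comm]]
    have hGd : ∀ (i : ℕ) (x : unitary A), x ∈ G' → ∃ y ∈ G', (y : A) = (mdiff α m)^[i] (x : A) := by
      intro i
      induction i with
      | zero => intro x hx; exact ⟨x, hx, rfl⟩
      | succ i ih =>
        intro x hx
        obtain ⟨y, hy, h1⟩ := ih x hx
        obtain ⟨z, hz, h2⟩ := hGα y hy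
        refine ⟨z * y⁻¹, G'.mul_mem hz (G'.inv_mem hy), ?_⟩
        rw [Function.iterate_succ', Function.comp_apply, ← h1, mdiff, ← h2]
        rfl
    -- the sequence in the residue class
    obtain ⟨g', hg', h1⟩ : ∃ g' ∈ G', (g' : A) = α^[r] (g : A) := by
      have h3 : α^[r] (g : A) ∈ unitary A := by
        have h4 : star (g : A) * g = 1 := (Unitary.mem_iff.1 g.2).1
        have h5 : (g : A) * star (g : A) = 1 := (Unitary.mem_iff.1 g.2).2
        have h6 : α^[r] (star (g : A)) = star (α^[r] (g : A)) := by
          have : ∀ (n : ℕ) (a : A), α^[n] (star a) = star (α^[n] a) := by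
            intro n
            induction n with
            | zero => intro a; rfl
            | succ n ih =>
              intro a
              rw [Function.iterate_succ', Function.comp_apply, Function.comp_apply, ih, map_star]
          exact this r _
        rw [Unitary.mem_iff]
        constructor
        · rw [← h6, ← iterate_map_mul, h4, iterate_map_one]
        · rw [← h6, ← iterate_map_mul, h5, iterate_map_one]
      exact ⟨⟨α^[r] (g : A), h3⟩, ⟨g, hg, rfl⟩, rfl⟩
    choose y hy1 hy2 using fun i => hGd i g' hg'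
    let x : ℕ → A := fun i => (mdiff α m)^[i] (g' : A)
    let gg : ℕ → G' := fun i => ⟨y i, hy1 i⟩
    have hgx : ∀ i, ((gg i : unitary A) : A) = x i := fun i => hy2 i
    have hx : ∀ i j, ∃ θ : ℝ, x i * x j = (𝐞 θ : ℂ) • (x j * x i) := by
      intro i j
      rw [← hgx, ← hgx]
      exact hcomm' _ (gg i).2 _ (gg j).2
    have hstep : ∀ i, α^[m] (x i) = x (i + 1) * x i := by
      intro i
      have h2 : x (i + 1) = α^[m] (x i) * star (x i) := by
        simp only [x]
        rw [Function.iterate_succ', Function.comp_apply, mdiff]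
      have h3 : star (x i) * x i = 1 := by
        rw [← hgx]
        exact (Unitary.mem_iff.1 (gg i : unitary A).2).1
      rw [h2, mul_assoc, h3, mul_one]
    have hone : α^[m] (1 : A) = 1 := iterate_map_one α m
    have hsm : ∀ (c : ℂ) (z : A), α^[m] (c • z) = c • α^[m] z := fun c z =>
      map_smul (iterL α m) c z
    have hxk : x k = c • (1 : A) := by
      simp only [x]
      rw [h1, mdiff_comm, hk]
      rw [show α^[r] (c • (1 : A)) = c • α^[r] (1 : A) from map_smul (iterL α r) c 1,
        iterate_map_one]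
    have hc1 : ‖c‖ = 1 := by
      have h2 : ‖x k‖ = 1 := by rw [← hgx]; exact hn1 _
      rw [hxk, norm_smul, norm_one, mul_one] at h2
      exact h2
    have hxk1 : x (k + 1) = (𝐞 (0 : ℝ) : ℂ) • (1 : A) := by
      have h2 : x (k + 1) = α^[m] (x k) * star (x k) := by
        simp only [x]
        rw [Function.iterate_succ', Function.comp_apply, mdiff]
      rw [h2, hxk, hsm, hone, star_smul, star_one, smul_mul_smul_comm, mul_one,
        Complex.star_def, Complex.mul_conj, Complex.normSq_eq_norm_sq, hc1]
      simp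
    obtain ⟨f, hf, hiter⟩ := beta_iter (α^[m]) (fun a b => iterate_map_mul α m a b) hsm hone x hx
      hstep (k + 1) ⟨0, hxk1⟩ 0 (by omega)
    have hval : ∀ q : ℕ, α^[m * q + r] (g : A) = f q • (((pg gg k q : G') : unitary A) : A) := by
      intro q
      rw [pg_coe gg x hgx, ← hiter q, Function.iterate_add, Function.comp_apply, ← h1,
        Function.iterate_mul]
      rfl
    obtain ⟨P, hP⟩ := hf
    have hzq : ∀ q : ℕ, z ^ (m * q + r) =
        (𝐞 ((C (θ₀ * r) + C (θ₀ * m) * X : ℝ[X]).eval (q : ℝ)) : ℂ) := by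
      intro q
      rw [hθ₀, phase_pow]
      congr 3
      simp only [eval_add, eval_mul, eval_C, eval_X]
      push_cast
      ring
    have hν : OrthPoly (fun q => w (m * q + r) * f q) := by
      have := ((moebius_ap m hm r hr).mul_phase (C (θ₀ * r) + C (θ₀ * m) * X)).mul_phase P
      simpa only [w, hP, hzq] using this
    have hmain := main_thm π hπ hπc k gg (fun q => w (m * q + r) * f q) (fun q => by
      rw [norm_mul, hP, Circle.norm_coe, mul_one]
      exact hw _) hν ζ
    have h5 := hmain.const_mul ‖ζ‖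
    rw [mul_zero] at h5
    rw [tendsto_zero_iff_norm_tendsto_zero]
    refine squeeze_zero (fun N => norm_nonneg _) (fun N => ?_) h5
    rw [norm_div, Complex.norm_natCast, ← mul_div_assoc]
    gcongr
    have h6 : ∑ q ∈ Finset.range N, w (m * q + r) * ρ (α^[m * q + r] (g : A)) =
        inner ℂ ζ (∑ q ∈ Finset.range N, (w (m * q + r) * f q) • π (pg gg k q) ζ) := by
      rw [inner_sum]
      apply Finset.sum_congr rfl
      intro q _
      rw [hval, map_smul, smul_eq_mul, hζ, inner_smul_right]
      exact (mul_assoc _ _ _).symm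
    rw [h6]
    exact norm_inner_le_norm _ _
  · intro n
    rw [norm_mul]
    calc _ ≤ 1 * ‖(g : A)‖ := by
          gcongr
          · exact hw n
          · exact (hρb _).trans (iterate_norm_le α n _)
      _ = _ := by rw [hn1, one_mul]

end Pool.Agent.Helper40.Free
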